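import Pool.Agent.P.MP_158617_an.Comb

/-!
Nested partitions of an interval with controlled size, for an abstract size function `D`.
-/

namespace Pool.Agent.P.MP_158617_an

open Set

/-- Properties of the function `D u v = diam γ[u, v]`. -/
structure IsSize (D : ℝ → ℝ → ℝ) : Prop where
  self : ∀ u, D u u = 0
  sub : ∀ u v w, u ≤ v → v ≤ w → D u w ≤ D u v + D v w
  mono : ∀ u v u' v', u' ≤ u → v ≤ v' → D u v ≤ D u' v'
  small : ∀ ε, 0 < ε → ∃ δ, 0 < δ ∧ ∀ u v, v - u ≤ δ → D u v < ε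

namespace IsSize

variable {D : ℝ → ℝ → ℝ} (hD : IsSize D)
include hD

theorem exists_cut {u v r : ℝ} (huv : u ≤ v) (hr : 0 ≤ r) (h : r ≤ D u v) :
    ∃ m, u ≤ m ∧ m ≤ v ∧ D u m = r := by
  have hc : ContinuousOn (fun m => D u m) (Icc u v) := by
    rw [Metric.continuousOn_iff]
    intro b hb ε hε
    obtain ⟨δ, hδ, hs⟩ := hD.small ε hε
    refine ⟨δ, hδ, fun a ha hab => ?_⟩
    rw [Real.dist_eq, abs_lt] at hab ⊢
    rcases le_total a b with h1 | h1
    · have h2 := hD.sub u a b ha.1 h1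
      have h3 := hD.mono u a u b le_rfl h1
      have h4 := hs a b (by linarith [hab.1])
      constructor <;> linarith
    · have h2 := hD.sub u b a hb.1 h1
      have h3 := hD.mono u b u a le_rfl h1
      have h4 := hs b a (by linarith [hab.2])
      constructor <;> linarith
  have h1 : r ∈ Icc (D u u) (D u v) := by
    rw [hD.self]
    exact ⟨hr, h⟩
  obtain ⟨m, hm, hm'⟩ := intermediate_value_Icc huv hc h1
  exact ⟨m, hm.1, hm.2, hm'⟩

theorem exists_chain {r : ℝ} (hr : 0 < r) {u v : ℝ} (huv : u ≤ v) (h : r ≤ D u v) :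
    ∃ (n : ℕ) (s : ℕ → ℝ), 1 ≤ n ∧ (2 * r ≤ D u v → 2 ≤ n) ∧ s 0 = u ∧ s n = v ∧
      ∀ i < n, s i ≤ s (i + 1) ∧ r ≤ D (s i) (s (i + 1)) ∧ D (s i) (s (i + 1)) ≤ 2 * r := by
  obtain ⟨δ, hδ, hs⟩ := hD.small r hr
  obtain ⟨M, hM⟩ := exists_nat_ge ((v - u) / δ)
  rw [div_le_iff₀ hδ] at hM
  induction M generalizing u with
  | zero =>
    have h1 := hs u v (by simp at hM; linarith)
    linarith
  | succ M ih =>
    by_cases h2 : 2 * r ≤ D u v
    · obtain ⟨m, hm1, hm2, hm⟩ := hD.exists_cut huv hr.le h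
      have h3 : δ < m - u := by
        by_contra h3
        have h4 := hs u m (not_lt.1 h3)
        linarith
      have h4 := hD.sub u m v hm1 hm2
      obtain ⟨n, s, hn, -, hs0, hsn, hsi⟩ := ih hm2 (by linarith) (by push_cast at hM; linarith)
      refine ⟨n + 1, fun i => Nat.casesOn i u s, by omega, fun _ => by omega, rfl, hsn, ?_⟩
      intro i hi
      rcases i with _ | i
      · change u ≤ s 0 ∧ r ≤ D u (s 0) ∧ D u (s 0) ≤ 2 * r
        rw [hs0, hm]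
        exact ⟨hm1, le_rfl, by linarith⟩
      · exact hsi i (by omega)
    · refine ⟨1, fun i => Nat.casesOn i u fun _ => v, le_rfl, fun h3 => absurd h3 h2, rfl, rfl, ?_⟩
      intro i hi
      obtain rfl : i = 0 := by omega
      exact ⟨huv, h, (not_le.1 h2).le⟩

theorem exists_split {r : ℝ} (hr : 0 < r) {u v : ℝ} (huv : u ≤ v) (h : 2 * r ≤ D u v) :
    ∃ (n : ℕ) (s : ℕ → ℝ), 2 ≤ n ∧ n ≠ 3 ∧ s 0 = u ∧ s n = v ∧
      ∀ i < n, s i ≤ s (i + 1) ∧ r ≤ D (s i) (s (i + 1)) ∧ D (s i) (s (i + 1)) ≤ 4 * r := by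
  obtain ⟨n, s, -, hn, hs0, hsn, hsi⟩ := hD.exists_chain hr huv (by linarith)
  by_cases h3 : n = 3
  · subst h3
    obtain ⟨a0, b0, c0⟩ := hsi 0 (by omega)
    obtain ⟨a1, b1, c1⟩ := hsi 1 (by omega)
    obtain ⟨a2, b2, c2⟩ := hsi 2 (by omega)
    refine ⟨2, fun i => if i = 2 then s 3 else s i, le_rfl, by omega, by simpa using hs0,
      by simpa using hsn, ?_⟩
    intro i hi
    rcases (by omega : i = 0 ∨ i = 1) with rfl | rfl
    · simp only [zero_add] at a0 b0 c0 ⊢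
      norm_num
      exact ⟨a0, b0, by linarith⟩
    · norm_num at a1 b1 c1 a2 b2 c2 ⊢
      have h4 := hD.sub (s 1) (s 2) (s 3) a1 a2
      have h5 := hD.mono (s 1) (s 2) (s 1) (s 3) le_rfl a2
      exact ⟨a1.trans a2, by linarith, by linarith⟩
  · refine ⟨n, s, hn h, h3, hs0, hsn, fun i hi => ?_⟩
    obtain ⟨a, b, c⟩ := hsi i hi
    exact ⟨a, b, by linarith⟩

theorem exists_refine {r : ℝ} (hr : 0 < r) (N : ℕ) (t : ℕ → ℝ)
    (ht : ∀ i < N, t i ≤ t (i + 1) ∧ 2 * r ≤ D (t i) (t (i + 1))) :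
    ∃ (p : ℕ → ℕ) (t' : ℕ → ℝ), p 0 = 0 ∧ (∀ i, p i + 2 ≤ p (i + 1)) ∧ (∀ i, p (i + 1) ≠ p i + 3) ∧
      (∀ i, t' (p i) = t i) ∧
      ∀ j < p N, t' j ≤ t' (j + 1) ∧ r ≤ D (t' j) (t' (j + 1)) ∧ D (t' j) (t' (j + 1)) ≤ 4 * r := by
  have h1 : ∀ i, ∃ (n : ℕ) (s : ℕ → ℝ), 2 ≤ n ∧ n ≠ 3 ∧ s 0 = t i ∧ (i < N → s n = t (i + 1) ∧
      ∀ o < n, s o ≤ s (o + 1) ∧ r ≤ D (s o) (s (o + 1)) ∧ D (s o) (s (o + 1)) ≤ 4 * r) := by
    intro i
    by_cases hi : i < N
    · obtain ⟨n, s, a, b, c, d, e⟩ := hD.exists_split hr (ht i hi).1 (ht i hi).2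
      exact ⟨n, s, a, b, c, fun _ => ⟨d, e⟩⟩
    · exact ⟨2, fun _ => t i, le_rfl, by omega, rfl, fun h => absurd h hi⟩
  choose n s hn2 hn3 hs0 hs using h1
  let p : ℕ → ℕ := fun i => ∑ j ∈ Finset.range i, n j
  have hp : ∀ i, p (i + 1) = p i + n i := fun i => Finset.sum_range_succ n i
  let T : Tower :=
    { p := fun _ => p
      N := fun k => Nat.rec 1 (fun _ a => p a) k
      N_zero := rfl
      N_succ := fun _ => rfl
      p_zero := fun _ => by simp [p]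
      two_le := fun _ i => by have := hn2 i; rw [hp]; omega
      ne_three := fun _ i => by have := hn3 i; rw [hp]; omega }
  let t' : ℕ → ℝ := fun j => s (T.par 0 j) (j - p (T.par 0 j))
  have ht0 : ∀ i, t' (p i) = t i := by
    intro i
    have h2 : T.par 0 (p i) = i := T.par_p 0 i
    simp only [t', h2, Nat.sub_self, hs0]
  have ht' : ∀ i o, i < N → o ≤ n i → t' (p i + o) = s i o := by
    intro i o hi ho
    rcases ho.eq_or_lt with rfl | ho
    · rw [← hp, ht0, (hs i hi).1]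
    · have h2 : T.par 0 (p i + o) = i :=
        T.par_eq (Nat.le_add_right _ _) (by change p i + o < p (i + 1); rw [hp]; omega)
      simp only [t', h2, Nat.add_sub_cancel_left]
  refine ⟨p, t', T.p_zero 0, T.two_le 0, T.ne_three 0, ht0, fun j hj => ?_⟩
  have h2 : p (T.par 0 j) ≤ j := T.p_par_le 0 j
  have h3 : j < p (T.par 0 j + 1) := T.lt_p_par 0 j
  have h4 : T.par 0 j < N := (T.p_strictMono 0).lt_iff_lt.1 (h2.trans_lt hj)
  generalize T.par 0 j = i at h2 h3 h4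
  obtain ⟨o, rfl⟩ := Nat.exists_eq_add_of_le h2
  rw [hp] at h3
  rw [add_assoc, ht' i o h4 (by omega), ht' i (o + 1) h4 (by omega)]
  exact (hs i h4).2 o (by omega)

theorem exists_tower (h01 : 0 < D 0 1) :
    ∃ (T : Tower) (t : ℕ → ℕ → ℝ), (∀ k, t k 0 = 0) ∧ (∀ k, t k (T.N k) = 1) ∧
      (∀ k i, t (k + 1) (T.p k i) = t k i) ∧
      ∀ k i, i < T.N k → t k i ≤ t k (i + 1) ∧ D 0 1 / 2 ^ k ≤ D (t k i) (t k (i + 1)) ∧
        D (t k i) (t k (i + 1)) ≤ 4 * (D 0 1 / 2 ^ k) := by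
  let P : ℕ → ℕ × (ℕ → ℝ) → Prop := fun k x => x.2 0 = 0 ∧ x.2 x.1 = 1 ∧
    ∀ i < x.1, x.2 i ≤ x.2 (i + 1) ∧ D 0 1 / 2 ^ k ≤ D (x.2 i) (x.2 (i + 1)) ∧
      D (x.2 i) (x.2 (i + 1)) ≤ 4 * (D 0 1 / 2 ^ k)
  have hstep : ∀ k (x : ℕ × (ℕ → ℝ)), ∃ (p : ℕ → ℕ) (t' : ℕ → ℝ), P k x →
      p 0 = 0 ∧ (∀ i, p i + 2 ≤ p (i + 1)) ∧ (∀ i, p (i + 1) ≠ p i + 3) ∧
      (∀ i, t' (p i) = x.2 i) ∧ P (k + 1) (p x.1, t') := by
    intro k x
    by_cases hx : P k x
    · obtain ⟨p, t', a, b, c, d, e⟩ := hD.exists_refine (r := D 0 1 / 2 ^ (k + 1)) (by positivity)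
        x.1 x.2 fun i hi => ⟨(hx.2.2 i hi).1, by
          have h1 := (hx.2.2 i hi).2.1
          have h2 : 2 * (D 0 1 / 2 ^ (k + 1)) = D 0 1 / 2 ^ k := by
            field_simp
            ring
          rwa [h2]⟩
      refine ⟨p, t', fun _ => ⟨a, b, c, d, ?_, ?_, e⟩⟩
      · change t' 0 = 0
        rw [← a, d, hx.1]
      · change t' (p x.1) = 1
        rw [d, hx.2.1]
    · exact ⟨fun _ => 0, fun _ => 0, fun h => absurd h hx⟩
  choose p t' hpt using hstep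
  let x : ℕ → ℕ × (ℕ → ℝ) := fun k =>
    Nat.rec (1, fun i => (i : ℝ)) (fun k y => (p k y y.1, t' k y)) k
  have hx : ∀ k, P k (x k) := by
    intro k
    induction k with
    | zero =>
      refine ⟨by simp [x], by simp [x], fun i hi => ?_⟩
      obtain rfl : i = 0 := by
        change i < 1 at hi
        omega
      simp only [x, Nat.rec_zero, Nat.cast_zero, zero_add, Nat.cast_one, pow_zero, div_one]
      exact ⟨zero_le_one, le_rfl, by linarith⟩
    | succ k ih => exact (hpt k _ ih).2.2.2.2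
  refine ⟨{ p := fun k => p k (x k)
            N := fun k => (x k).1
            N_zero := rfl
            N_succ := fun _ => rfl
            p_zero := fun k => (hpt k _ (hx k)).1
            two_le := fun k => (hpt k _ (hx k)).2.1
            ne_three := fun k => (hpt k _ (hx k)).2.2.1 }, fun k => (x k).2,
    fun k => (hx k).1, fun k => (hx k).2.1, fun k => (hpt k _ (hx k)).2.2.2.1,
    fun k => (hx k).2.2⟩

end IsSize

end Pool.Agent.P.MP_158617_an
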