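import Pool.Agent.P.MP_158617_an.Forest

/-!
Towers of nested partitions and the map `Φ` from division points to a Banach space carrying a
system of vectors.
-/

namespace Pool.Agent.P.MP_158617_an

/-- Level `k` has the intervals `0, …, N k - 1`; the children of interval `i` of level `k` are the
intervals `p k i, …, p k (i + 1) - 1` of level `k + 1`. -/
structure Tower where
  p : ℕ → ℕ → ℕ
  N : ℕ → ℕ
  N_zero : N 0 = 1
  N_succ : ∀ k, N (k + 1) = p k (N k)
  p_zero : ∀ k, p k 0 = 0
  two_le : ∀ k i, p k i + 2 ≤ p k (i + 1)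
  ne_three : ∀ k i, p k (i + 1) ≠ p k i + 3

namespace Tower

variable (T : Tower)

theorem p_strictMono (k : ℕ) : StrictMono (T.p k) :=
  strictMono_nat_of_lt_succ fun i => by have := T.two_le k i; omega

/-- The parent of a node. -/
def par (k j : ℕ) : ℕ := Nat.findGreatest (fun i => T.p k i ≤ j) j

theorem p_par_le (k j : ℕ) : T.p k (T.par k j) ≤ j :=
  Nat.findGreatest_spec (P := fun i => T.p k i ≤ j) (Nat.zero_le j) (by simp [T.p_zero])

theorem lt_p_par (k j : ℕ) : j < T.p k (T.par k j + 1) := by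
  by_contra h
  have h1 : T.p k (T.par k j + 1) ≤ j := not_lt.1 h
  have h2 : T.par k j + 1 ≤ j := ((T.p_strictMono k).le_apply).trans h1
  have h3 := Nat.le_findGreatest (P := fun i => T.p k i ≤ j) h2 h1
  unfold par at h3
  omega

theorem par_eq {k i j : ℕ} (h1 : T.p k i ≤ j) (h2 : j < T.p k (i + 1)) : T.par k j = i := by
  have h3 := T.p_par_le k j
  have h4 := T.lt_p_par k j
  have h5 : T.par k j < i + 1 := (T.p_strictMono k).lt_iff_lt.1 (h3.trans_lt h2)
  have h6 : i < T.par k j + 1 := (T.p_strictMono k).lt_iff_lt.1 (h1.trans_lt h4)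
  omega

theorem par_p (k i : ℕ) : T.par k (T.p k i) = i :=
  T.par_eq le_rfl (T.p_strictMono k (Nat.lt_succ_self i))

theorem par_lt {k j : ℕ} (h : j < T.N (k + 1)) : T.par k j < T.N k := by
  rw [T.N_succ] at h
  exact (T.p_strictMono k).lt_iff_lt.1 ((T.p_par_le k j).trans_lt h)

theorem par_le {k j : ℕ} (h : j ≤ T.N (k + 1)) : T.par k j ≤ T.N k := by
  rw [T.N_succ] at h
  exact (T.p_strictMono k).le_iff_le.1 ((T.p_par_le k j).trans h)

theorem par_lt' {k j : ℕ} (h : j ≤ T.N (k + 1)) (h' : j ≠ T.p k (T.par k j)) :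
    T.par k j < T.N k := by
  rcases (T.par_le h).eq_or_lt with h1 | h1
  · exfalso
    have h2 := T.p_par_le k j
    rw [T.N_succ, ← h1] at h
    omega
  · exact h1

theorem p_le_N {k i : ℕ} (h : i ≤ T.N k) : T.p k i ≤ T.N (k + 1) := by
  rw [T.N_succ]
  exact (T.p_strictMono k).monotone h

/-- Nodes that carry an atom of the measure space. -/
def alive : ℕ → ℕ → Prop
  | 0, j => j = 0
  | k + 1, j => T.par k j < T.N k ∧
      ((alive k (T.par k j) ∧ T.p k (T.par k j + 1) = T.p k (T.par k j) + 2) ∨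
        j + 1 ≠ T.p k (T.par k j + 1))

/-- Nodes whose atom is cut into two halves. -/
def Sp (k i : ℕ) : Prop := T.alive k i ∧ T.p k (i + 1) = T.p k i + 2

theorem alive_succ (k j : ℕ) : T.alive (k + 1) j ↔ T.par k j < T.N k ∧
    (T.Sp k (T.par k j) ∨ j + 1 ≠ T.p k (T.par k j + 1)) := Iff.rfl

theorem alive_lt : ∀ {k j : ℕ}, T.alive k j → j < T.N k
  | 0, j, h => by
    have h1 : j = 0 := h
    rw [T.N_zero]
    omega
  | k + 1, j, h => (T.lt_p_par k j).trans_le (T.p_le_N h.1)

theorem par_p_succ {k i : ℕ} : T.par k (T.p k i + 1) = i :=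
  T.par_eq (Nat.le_succ _) (by have := T.two_le k i; omega)

/-- The forest of binary splittings of a tower. -/
def forest : Forest where
  G := T.alive
  Sp := T.Sp
  q := T.p
  par := T.par
  good := fun _ _ h => h.1
  good₁ := fun k i h => by
    rw [alive_succ, T.par_p]
    exact ⟨T.alive_lt h.1, Or.inl h⟩
  good₂ := fun k i h => by
    rw [alive_succ, T.par_p_succ]
    exact ⟨T.alive_lt h.1, Or.inl h⟩
  par₁ := fun k i _ => T.par_p k i
  par₂ := fun k i _ => T.par_p_succ
  child := fun k j h => by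
    have h1 := T.p_par_le k j
    have h2 := T.lt_p_par k j
    have h3 := h.2
    omega

variable {E : Type*} [NormedAddCommGroup E] [NormedSpace ℝ E]

/-- Interpolation weight of the `o`-th division point of a node that is not split. -/
noncomputable def wt (k i o : ℕ) : ℝ := (o : ℝ) / ((T.p k (i + 1) - T.p k i - 1 : ℕ) : ℝ)

open scoped Classical in
/-- The image of the division point `j` of level `k`. -/
noncomputable def Phi (e : ℕ → ℕ → E) (r : ℕ → ℝ) : ℕ → ℕ → E
  | 0, j => if j = 0 then 0 else r 0 • e 0 0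
  | k + 1, j =>
    if j = T.p k (T.par k j) then Phi e r k (T.par k j)
    else if T.Sp k (T.par k j) then
      (1 / 2 : ℝ) • (Phi e r k (T.par k j) + Phi e r k (T.par k j + 1)) +
        (r (k + 1) / 2) • (e (k + 1) (T.p k (T.par k j)) - e (k + 1) (T.p k (T.par k j) + 1))
    else Phi e r k (T.par k j) +
      T.wt k (T.par k j) (j - T.p k (T.par k j)) •
        (Phi e r k (T.par k j + 1) - Phi e r k (T.par k j)) + r (k + 1) • e (k + 1) (j - 1)

variable (e : ℕ → ℕ → E) (r : ℕ → ℝ)

theorem Phi_zero_zero : T.Phi e r 0 0 = 0 := by simp [Phi]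

theorem Phi_zero_one : T.Phi e r 0 1 = r 0 • e 0 0 := by simp [Phi]

theorem Phi_p (k i : ℕ) : T.Phi e r (k + 1) (T.p k i) = T.Phi e r k i := by
  rw [Phi, T.par_p, if_pos rfl]

theorem Phi_split {k i : ℕ} (h : T.Sp k i) : T.Phi e r (k + 1) (T.p k i + 1) =
    (1 / 2 : ℝ) • (T.Phi e r k i + T.Phi e r k (i + 1)) +
      (r (k + 1) / 2) • (e (k + 1) (T.p k i) - e (k + 1) (T.p k i + 1)) := by
  rw [Phi, T.par_p_succ, if_neg (Nat.succ_ne_self _), if_pos h]

theorem Phi_spawn {k i o : ℕ} (h : ¬ T.Sp k i) (ho : T.p k i + o + 1 < T.p k (i + 1)) :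
    T.Phi e r (k + 1) (T.p k i + o + 1) = T.Phi e r k i +
      T.wt k i (o + 1) • (T.Phi e r k (i + 1) - T.Phi e r k i) +
        r (k + 1) • e (k + 1) (T.p k i + o) := by
  have h1 : T.par k (T.p k i + o + 1) = i := T.par_eq (by omega) ho
  rw [Phi, h1, if_neg (by omega), if_neg h]
  have h2 : T.p k i + o + 1 - T.p k i = o + 1 := by omega
  rw [h2, Nat.add_sub_cancel]

theorem wt_nonneg (k i o : ℕ) : 0 ≤ T.wt k i o := by unfold wt; positivity

theorem wt_den_pos (k i : ℕ) : (0 : ℝ) < ((T.p k (i + 1) - T.p k i - 1 : ℕ) : ℝ) := by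
  have := T.two_le k i
  exact_mod_cast (by omega : 0 < T.p k (i + 1) - T.p k i - 1)

theorem wt_le_one {k i o : ℕ} (ho : T.p k i + o < T.p k (i + 1)) : T.wt k i o ≤ 1 := by
  unfold wt
  rw [div_le_one (T.wt_den_pos k i)]
  exact_mod_cast (by omega : o ≤ T.p k (i + 1) - T.p k i - 1)

theorem wt_last {k i o : ℕ} (ho : T.p k i + o + 1 = T.p k (i + 1)) : T.wt k i o = 1 := by
  unfold wt
  rw [div_eq_one_iff_eq (T.wt_den_pos k i).ne']
  exact_mod_cast (by omega : o = T.p k (i + 1) - T.p k i - 1)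

theorem wt_succ (k i o : ℕ) : T.wt k i (o + 1) = T.wt k i o + T.wt k i 1 := by
  unfold wt
  push_cast
  ring

theorem wt_one_le {k i : ℕ} (h : T.alive k i) (h' : ¬ T.Sp k i) : T.wt k i 1 ≤ 1 / 3 := by
  unfold wt
  have h1 := T.two_le k i
  have h2 := T.ne_three k i
  have h3 : T.p k (i + 1) ≠ T.p k i + 2 := fun h3 => h' ⟨h, h3⟩
  have h4 : (3 : ℝ) ≤ ((T.p k (i + 1) - T.p k i - 1 : ℕ) : ℝ) := by
    exact_mod_cast (by omega : 3 ≤ T.p k (i + 1) - T.p k i - 1)
  rw [Nat.cast_one]
  exact one_div_le_one_div_of_le (by norm_num) h4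

variable {e r}

theorem norm_r_smul (he : T.forest.IsSystem e) {c : ℝ} (hc : 0 ≤ c) (k j : ℕ) :
    ‖c • e k j‖ ≤ c := by
  rw [norm_smul, Real.norm_of_nonneg hc]
  exact mul_le_of_le_one_right hc (he.norm_le k j)

theorem delta_bound (he : T.forest.IsSystem e) (hr0 : ∀ k, 0 < r k)
    (hr : ∀ k, r k = 2 * r (k + 1)) : ∀ k j, j < T.N k →
      (T.alive k j → ‖T.Phi e r k (j + 1) - T.Phi e r k j - r k • e k j‖ ≤ 5 * r k) ∧
      (¬ T.alive k j → ‖T.Phi e r k (j + 1) - T.Phi e r k j‖ ≤ r k) := by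
  intro k
  induction k with
  | zero =>
    intro j hj
    rw [T.N_zero] at hj
    obtain rfl : j = 0 := by omega
    refine ⟨fun _ => ?_, fun h => absurd rfl h⟩
    rw [Phi_zero_zero, zero_add, Phi_zero_one]
    simpa using (hr0 0).le
  | succ k ih =>
    intro j hj
    have hi := T.par_lt hj
    have h1 := T.p_par_le k j
    have h2 := T.lt_p_par k j
    rw [alive_succ]
    generalize T.par k j = i at hi h1 h2
    obtain ⟨o, rfl⟩ := Nat.exists_eq_add_of_le h1
    have hrk := hr k
    have hr1 := hr0 (k + 1)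
    obtain ⟨ih1, ih2⟩ := ih i hi
    by_cases hs : T.Sp k i
    · refine ⟨fun _ => ?_, fun h => absurd ⟨hi, Or.inl hs⟩ h⟩
      have h3 := hs.2
      have h4 : (2 : ℝ) • e k i = e (k + 1) (T.p k i) + e (k + 1) (T.p k i + 1) := he.split k i hs
      have h5 : ‖(1 / 2 : ℝ) • (T.Phi e r k (i + 1) - T.Phi e r k i - r k • e k i)‖ ≤
          5 * r (k + 1) := by
        rw [norm_smul, Real.norm_of_nonneg (by norm_num)]
        linarith [ih1 hs.1]
      have h6 : r k • e k i = r (k + 1) • (e (k + 1) (T.p k i) + e (k + 1) (T.p k i + 1)) := by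
        rw [← h4, smul_smul, hrk, mul_comm]
      rcases (by omega : o = 0 ∨ o = 1) with rfl | rfl
      · rw [add_zero, T.Phi_split e r hs, T.Phi_p]
        convert h5 using 2
        rw [h6]
        module
      · have h7 : T.p k i + 1 + 1 = T.p k (i + 1) := by omega
        rw [h7, T.Phi_split e r hs, T.Phi_p]
        convert h5 using 2
        rw [h6]
        module
    · have hD : ‖T.wt k i 1 • (T.Phi e r k (i + 1) - T.Phi e r k i)‖ ≤ 4 * r (k + 1) := by
        rw [norm_smul, Real.norm_of_nonneg (T.wt_nonneg _ _ _)]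
        by_cases ha : T.alive k i
        · have h3 : ‖T.Phi e r k (i + 1) - T.Phi e r k i‖ ≤ 6 * r k := by
            have h4 := norm_add_le (T.Phi e r k (i + 1) - T.Phi e r k i - r k • e k i) (r k • e k i)
            rw [sub_add_cancel] at h4
            linarith [ih1 ha, T.norm_r_smul he (hr0 k).le k i]
          calc T.wt k i 1 * ‖T.Phi e r k (i + 1) - T.Phi e r k i‖ ≤ 1 / 3 * (6 * r k) :=
                mul_le_mul (T.wt_one_le ha hs) h3 (norm_nonneg _) (by norm_num)
            _ = 4 * r (k + 1) := by rw [hrk]; ring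
        · have h3 : T.wt k i 1 ≤ 1 := T.wt_le_one (by have := T.two_le k i; omega)
          calc T.wt k i 1 * ‖T.Phi e r k (i + 1) - T.Phi e r k i‖ ≤ 1 * r k :=
                mul_le_mul h3 (ih2 ha) (norm_nonneg _) (by norm_num)
            _ ≤ 4 * r (k + 1) := by rw [hrk]; linarith
      by_cases hl : T.p k i + o + 1 = T.p k (i + 1)
      · refine ⟨fun h => ?_, fun _ => ?_⟩
        · rcases h.2 with h | h
          · exact absurd h hs
          · exact absurd hl h
        · obtain ⟨o', rfl⟩ : ∃ o', o = o' + 1 := ⟨o - 1, by have := T.two_le k i; omega⟩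
          rw [hl, T.Phi_p, ← add_assoc, T.Phi_spawn e r hs (by omega), T.wt_last hl]
          have h3 := T.norm_r_smul he hr1.le (k + 1) (T.p k i + o')
          rw [← norm_neg] at h3
          refine le_trans (le_of_eq ?_) h3
          congr 1
          module
      · refine ⟨fun _ => ?_, fun h => absurd ⟨hi, Or.inr hl⟩ h⟩
        rw [T.Phi_spawn e r hs (by omega)]
        rcases o with _ | o'
        · rw [add_zero, T.Phi_p]
          refine le_trans (le_of_eq ?_) (hD.trans (by linarith))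
          congr 1
          module
        · rw [← add_assoc (T.p k i) o' 1, T.Phi_spawn e r hs (by omega), T.wt_succ k i (o' + 1)]
          have h3 := T.norm_r_smul he hr1.le (k + 1) (T.p k i + o')
          have h4 := norm_sub_le (T.wt k i 1 • (T.Phi e r k (i + 1) - T.Phi e r k i))
            (r (k + 1) • e (k + 1) (T.p k i + o'))
          refine le_trans (le_of_eq ?_) (h4.trans (by linarith))
          congr 1
          module

theorem delta_le (he : T.forest.IsSystem e) (hr0 : ∀ k, 0 < r k)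
    (hr : ∀ k, r k = 2 * r (k + 1)) {k j : ℕ} (hj : j < T.N k) :
    ‖T.Phi e r k (j + 1) - T.Phi e r k j‖ ≤ 6 * r k := by
  obtain ⟨h1, h2⟩ := T.delta_bound he hr0 hr k j hj
  by_cases ha : T.alive k j
  · have h4 := norm_add_le (T.Phi e r k (j + 1) - T.Phi e r k j - r k • e k j) (r k • e k j)
    rw [sub_add_cancel] at h4
    linarith [h1 ha, T.norm_r_smul he (hr0 k).le k j]
  · linarith [h2 ha, hr0 k]

theorem step_le (he : T.forest.IsSystem e) (hr0 : ∀ k, 0 < r k)
    (hr : ∀ k, r k = 2 * r (k + 1)) {k j : ℕ} (hj : j ≤ T.N (k + 1)) :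
    ‖T.Phi e r (k + 1) j - T.Phi e r k (T.par k j)‖ ≤ 7 * r k := by
  have hrk := hr k
  have hr1 := hr0 (k + 1)
  by_cases h0 : j = T.p k (T.par k j)
  · nth_rewrite 1 [h0]
    rw [T.Phi_p, sub_self, norm_zero]
    linarith
  have hi := T.par_lt' hj h0
  have h1 := T.p_par_le k j
  have h2 := T.lt_p_par k j
  generalize T.par k j = i at hi h0 h1 h2
  obtain ⟨o, rfl⟩ : ∃ o, j = T.p k i + o + 1 := ⟨j - T.p k i - 1, by omega⟩
  have hD := T.delta_le he hr0 hr hi
  by_cases hs : T.Sp k i
  · obtain rfl : o = 0 := by have := hs.2; omega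
    rw [add_zero, T.Phi_split e r hs]
    have h3 : (1 / 2 : ℝ) • (T.Phi e r k i + T.Phi e r k (i + 1)) +
        (r (k + 1) / 2) • (e (k + 1) (T.p k i) - e (k + 1) (T.p k i + 1)) - T.Phi e r k i =
        (1 / 2 : ℝ) • (T.Phi e r k (i + 1) - T.Phi e r k i) +
        ((r (k + 1) / 2) • e (k + 1) (T.p k i) - (r (k + 1) / 2) • e (k + 1) (T.p k i + 1)) := by
      module
    rw [h3]
    refine (norm_add_le _ _).trans ?_
    have h4 := norm_sub_le ((r (k + 1) / 2) • e (k + 1) (T.p k i))
      ((r (k + 1) / 2) • e (k + 1) (T.p k i + 1))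
    have h5 := T.norm_r_smul he (half_pos hr1).le (k + 1) (T.p k i)
    have h6 := T.norm_r_smul he (half_pos hr1).le (k + 1) (T.p k i + 1)
    rw [norm_smul, Real.norm_of_nonneg (by norm_num)]
    linarith [norm_nonneg (T.Phi e r k (i + 1) - T.Phi e r k i)]
  · rw [T.Phi_spawn e r hs h2]
    have h3 : T.Phi e r k i + T.wt k i (o + 1) • (T.Phi e r k (i + 1) - T.Phi e r k i) +
        r (k + 1) • e (k + 1) (T.p k i + o) - T.Phi e r k i =
        T.wt k i (o + 1) • (T.Phi e r k (i + 1) - T.Phi e r k i) +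
        r (k + 1) • e (k + 1) (T.p k i + o) := by
      module
    rw [h3]
    refine (norm_add_le _ _).trans ?_
    have h5 := T.norm_r_smul he hr1.le (k + 1) (T.p k i + o)
    have h6 : T.wt k i (o + 1) ≤ 1 := T.wt_le_one (by omega)
    have h7 : ‖T.wt k i (o + 1) • (T.Phi e r k (i + 1) - T.Phi e r k i)‖ ≤ 1 * (6 * r k) := by
      rw [norm_smul, Real.norm_of_nonneg (T.wt_nonneg _ _ _)]
      exact mul_le_mul h6 hD (norm_nonneg _) (by norm_num)
    linarith

theorem Phi_lip (he : T.forest.IsSystem e) (hr0 : ∀ k, 0 < r k)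
    (hr : ∀ k, r k = 2 * r (k + 1)) (ρ : ℕ → ℕ → ℕ → ℝ)
    (hρ1 : ∀ k j j', j < j' → j' ≤ T.N k → r k ≤ ρ k j j')
    (hρ2 : ∀ k i i' j j', j ≤ T.p k i → i ≤ i' → T.p k i' ≤ j' → j' ≤ T.N (k + 1) →
      ρ k i i' ≤ ρ (k + 1) j j') :
    ∀ k j j', j < j' → j' ≤ T.N k → ‖T.Phi e r k j' - T.Phi e r k j‖ + 40 * r k ≤ 80 * ρ k j j' := by
  intro k
  induction k with
  | zero =>
    intro j j' hjj hj'
    have h1 := hρ1 0 j j' hjj hj'
    rw [T.N_zero] at hj'
    obtain rfl : j = 0 := by omega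
    obtain rfl : j' = 1 := by omega
    have h2 := T.delta_le he hr0 hr (k := 0) (j := 0) (by rw [T.N_zero]; omega)
    rw [zero_add] at h2
    linarith [hr0 0]
  | succ k ih =>
    intro j j' hjj hj'
    have hrk := hr k
    have hr1 := hr0 (k + 1)
    have h1 := hρ1 (k + 1) j j' hjj hj'
    have hs := T.step_le he hr0 hr (hjj.le.trans hj')
    have hs' := T.step_le he hr0 hr hj'
    have hi := T.par_lt (hjj.trans_le hj')
    have hi' := T.par_le hj'
    have hD := T.delta_le he hr0 hr hi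
    have h2 := T.p_par_le k j
    have h3 := T.lt_p_par k j
    have h2' := T.p_par_le k j'
    have h3' := T.lt_p_par k j'
    have hii : T.par k j < T.par k j' + 1 :=
      (T.p_strictMono k).lt_iff_lt.1 ((h2.trans hjj.le).trans_lt h3')
    generalize T.par k j = i at *
    generalize T.par k j' = i' at *
    have h4 : ‖T.Phi e r (k + 1) j' - T.Phi e r (k + 1) j‖ ≤
        ‖T.Phi e r (k + 1) j' - T.Phi e r k i'‖ + ‖T.Phi e r k i' - T.Phi e r k i‖ +
        ‖T.Phi e r (k + 1) j - T.Phi e r k i‖ := by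
      have h5 : T.Phi e r (k + 1) j' - T.Phi e r (k + 1) j =
          (T.Phi e r (k + 1) j' - T.Phi e r k i') + (T.Phi e r k i' - T.Phi e r k i) -
          (T.Phi e r (k + 1) j - T.Phi e r k i) := by abel
      rw [h5]
      have h6 := norm_add_le (T.Phi e r (k + 1) j' - T.Phi e r k i')
        (T.Phi e r k i' - T.Phi e r k i)
      exact (norm_sub_le _ _).trans (by linarith)
    rcases (by omega : i' = i ∨ i' = i + 1 ∨ i + 1 < i') with rfl | rfl | h5
    · rw [sub_self, norm_zero] at h4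
      linarith
    · linarith
    · have h6 := ih (i + 1) i' h5 hi'
      have h7 := hρ2 k (i + 1) i' j j' h3.le h5.le h2' hj'
      have h8 : ‖T.Phi e r k i' - T.Phi e r k i‖ ≤
          ‖T.Phi e r k i' - T.Phi e r k (i + 1)‖ + ‖T.Phi e r k (i + 1) - T.Phi e r k i‖ :=
        norm_sub_le_norm_sub_add_norm_sub _ _ _
      linarith

theorem Phi_dense (he : T.forest.IsSystem e) (hr0 : ∀ k, 0 < r k)
    (S : Submodule ℝ E) (hS : IsClosed (S : Set E))
    (hmem : ∀ k j, j ≤ T.N k → T.Phi e r k j ∈ S) : ∀ x, x ∈ S := by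
  refine he.dense S hS ?_
  intro k
  induction k with
  | zero =>
    intro j hj
    obtain rfl : j = 0 := hj
    have h1 := hmem 0 1 (by rw [T.N_zero])
    rw [Phi_zero_one] at h1
    exact (S.smul_mem_iff (hr0 0).ne').1 h1
  | succ k ih =>
    intro j hj
    have hj' : T.alive (k + 1) j := hj
    rw [alive_succ] at hj'
    have h1 := T.p_par_le k j
    have h2 := T.lt_p_par k j
    generalize T.par k j = i at *
    obtain ⟨hi, hj'⟩ := hj'
    obtain ⟨o, rfl⟩ := Nat.exists_eq_add_of_le h1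
    have m0 := hmem k i hi.le
    have m1 := hmem k (i + 1) hi
    have hN := T.p_le_N (k := k) (i := i + 1) hi
    have hr1 := hr0 (k + 1)
    by_cases hs : T.Sp k i
    · have h3 := hs.2
      have m2 := hmem (k + 1) (T.p k i + 1) (by omega)
      rw [T.Phi_split e r hs, S.add_mem_iff_right (S.smul_mem _ (S.add_mem m0 m1)),
        S.smul_mem_iff (half_pos hr1).ne'] at m2
      have m3 : e (k + 1) (T.p k i) + e (k + 1) (T.p k i + 1) ∈ S := by
        have h4 : (2 : ℝ) • e k i = e (k + 1) (T.p k i) + e (k + 1) (T.p k i + 1) := he.split k i hs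
        rw [← h4]
        exact S.smul_mem _ (ih i hs.1)
      rcases (by omega : o = 0 ∨ o = 1) with rfl | rfl
      · have m4 := S.smul_mem (1 / 2 : ℝ) (S.add_mem m3 m2)
        convert m4 using 1
        rw [add_zero]
        module
      · have m4 := S.smul_mem (1 / 2 : ℝ) (S.sub_mem m3 m2)
        convert m4 using 1
        module
    · have hl : T.p k i + o + 1 ≠ T.p k (i + 1) := hj'.resolve_left hs
      have m2 := hmem (k + 1) (T.p k i + o + 1) (by omega)
      rwa [T.Phi_spawn e r hs (by omega),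
        S.add_mem_iff_right (S.add_mem m0 (S.smul_mem _ (S.sub_mem m1 m0))),
        S.smul_mem_iff hr1.ne'] at m2

open scoped Classical in
/-- Values of the functional on the system of vectors, given the values `F` of a function at the
division points. -/
noncomputable def Hf (F : ℕ → ℕ → ℝ) (r : ℕ → ℝ) : ℕ → ℕ → ℝ
  | 0, j => (F 0 (j + 1) - F 0 j) / r 0
  | k + 1, j =>
    if T.Sp k (T.par k j) then
      (F (k + 1) (j + 1) - F (k + 1) j) / r (k + 1) -
        (F k (T.par k j + 1) - F k (T.par k j)) / r k + Hf F r k (T.par k j)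
    else (F (k + 1) (j + 1) - F k (T.par k j) - T.wt k (T.par k j) (j - T.p k (T.par k j) + 1) *
      (F k (T.par k j + 1) - F k (T.par k j))) / r (k + 1)

theorem Phi_lift (he : T.forest.IsSystem e) (hr0 : ∀ k, 0 < r k)
    (hr : ∀ k, r k = 2 * r (k + 1)) (F : ℕ → ℕ → ℝ) (L : ℝ) (hL : 0 ≤ L) (hF0 : F 0 0 = 0)
    (hFp : ∀ k i, i ≤ T.N k → F (k + 1) (T.p k i) = F k i)
    (hFl : ∀ k i j, i < T.N k → T.p k i ≤ j → j ≤ T.p k (i + 1) →
      |F (k + 1) j - F k i| ≤ L * r k) :
    ∃ φ : E →L[ℝ] ℝ, ‖φ‖ ≤ 6 * L ∧ ∀ k j, j ≤ T.N k → φ (T.Phi e r k j) = F k j := by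
  have hg : ∀ k i, i < T.N k → |(F k (i + 1) - F k i) / r k| ≤ L := by
    intro k i hi
    have h1 := hFl k i (T.p k (i + 1)) hi ((T.p_strictMono k).monotone (Nat.le_succ i)) le_rfl
    rw [hFp k (i + 1) hi] at h1
    rw [abs_div, abs_of_pos (hr0 k), div_le_iff₀ (hr0 k)]
    exact h1
  have hH : ∀ k j, T.alive k j → |T.Hf F r k j - (F k (j + 1) - F k j) / r k| ≤ 5 * L := by
    intro k
    induction k with
    | zero =>
      intro j _
      rw [Hf, sub_self, abs_zero]
      linarith
    | succ k ih =>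
      intro j hj
      have hjN := T.alive_lt hj
      rw [alive_succ] at hj
      have h1 := T.p_par_le k j
      have h2 := T.lt_p_par k j
      rw [Hf]
      generalize T.par k j = i at *
      obtain ⟨hi, hj⟩ := hj
      by_cases hs : T.Sp k i
      · rw [if_pos hs]
        convert ih i hs.1 using 2
        ring
      · rw [if_neg hs]
        have hl : j + 1 ≠ T.p k (i + 1) := hj.resolve_left hs
        have h3 := hFl k i (j + 1) hi (by omega) (by omega)
        have h4 := hg k i hi
        rw [abs_div, abs_of_pos (hr0 k), div_le_iff₀ (hr0 k)] at h4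
        have h5 := hg (k + 1) j hjN
        have h6 : T.wt k i (j - T.p k i + 1) ≤ 1 := T.wt_le_one (by omega)
        have h7 : |T.wt k i (j - T.p k i + 1) * (F k (i + 1) - F k i)| ≤ 1 * (L * r k) := by
          rw [abs_mul, abs_of_nonneg (T.wt_nonneg _ _ _)]
          exact mul_le_mul h6 h4 (abs_nonneg _) (by norm_num)
        have h8 : |(F (k + 1) (j + 1) - F k i - T.wt k i (j - T.p k i + 1) *
            (F k (i + 1) - F k i)) / r (k + 1)| ≤ 4 * L := by
          rw [abs_div, abs_of_pos (hr0 (k + 1)), div_le_iff₀ (hr0 (k + 1))]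
          refine (abs_sub _ _).trans ?_
          rw [hr k] at h3 h7
          linarith
        refine (abs_sub _ _).trans ?_
        linarith
  have hs1 : ∀ k i, T.Sp k i → T.Hf F r (k + 1) (T.p k i) =
      (F (k + 1) (T.p k i + 1) - F k i) / r (k + 1) - (F k (i + 1) - F k i) / r k +
        T.Hf F r k i := by
    intro k i hs
    rw [Hf, T.par_p, if_pos hs, hFp k i (T.alive_lt hs.1).le]
  have hs2 : ∀ k i, T.Sp k i → T.Hf F r (k + 1) (T.p k i + 1) =
      (F k (i + 1) - F (k + 1) (T.p k i + 1)) / r (k + 1) - (F k (i + 1) - F k i) / r k +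
        T.Hf F r k i := by
    intro k i hs
    have h7 : T.p k i + 1 + 1 = T.p k (i + 1) := hs.2.symm
    rw [Hf, T.par_p_succ, if_pos hs, h7, hFp k (i + 1) (T.alive_lt hs.1)]
  obtain ⟨φ, hφ, hφe⟩ := he.lift (T.Hf F r) (6 * L) (by linarith) (fun k j hj => by
      have h1 := hH k j hj
      have h2 := hg k j (T.alive_lt hj)
      have h3 := abs_add_le (T.Hf F r k j - (F k (j + 1) - F k j) / r k)
        ((F k (j + 1) - F k j) / r k)
      rw [sub_add_cancel] at h3
      linarith) (fun k i hs => by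
      change 2 * T.Hf F r k i = T.Hf F r (k + 1) (T.p k i) + T.Hf F r (k + 1) (T.p k i + 1)
      have h1 := (hr0 (k + 1)).ne'
      rw [hs1 k i hs, hs2 k i hs, hr k]
      field_simp
      ring)
  refine ⟨φ, hφ, ?_⟩
  intro k
  induction k with
  | zero =>
    intro j hj
    rw [T.N_zero] at hj
    rcases (by omega : j = 0 ∨ j = 1) with rfl | rfl
    · rw [Phi_zero_zero, map_zero, hF0]
    · have h1 := (hr0 0).ne'
      rw [Phi_zero_one, map_smul, hφe 0 0 rfl, Hf, hF0, smul_eq_mul]
      field_simp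
      simp
  | succ k ih =>
    intro j hj
    by_cases h0 : j = T.p k (T.par k j)
    · rw [h0, T.Phi_p, ih _ (T.par_le hj), hFp _ _ (T.par_le hj)]
    have hi := T.par_lt' hj h0
    have h1 := T.p_par_le k j
    have h2 := T.lt_p_par k j
    generalize T.par k j = i at hi h0 h1 h2
    obtain ⟨o, rfl⟩ : ∃ o, j = T.p k i + o + 1 := ⟨j - T.p k i - 1, by omega⟩
    have hr1 := (hr0 (k + 1)).ne'
    by_cases hs : T.Sp k i
    · obtain rfl : o = 0 := by have := hs.2; omega
      have g1 : φ (e (k + 1) (T.p k i)) = _ := hφe _ _ (T.forest.good₁ k i hs)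
      have g2 : φ (e (k + 1) (T.p k i + 1)) = _ := hφe _ _ (T.forest.good₂ k i hs)
      change _ = T.Hf F r (k + 1) (T.p k i) at g1
      change _ = T.Hf F r (k + 1) (T.p k i + 1) at g2
      rw [add_zero, T.Phi_split e r hs]
      simp only [map_add, map_smul, map_sub, smul_eq_mul]
      rw [ih i hi.le, ih (i + 1) hi, g1, g2, hs1 k i hs, hs2 k i hs]
      field_simp
      ring
    · have hp : T.par k (T.p k i + o) = i := T.par_eq (by omega) (by omega)
      have ha : T.alive (k + 1) (T.p k i + o) := by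
        rw [alive_succ, hp]
        exact ⟨hi, Or.inr h2.ne⟩
      rw [T.Phi_spawn e r hs h2]
      simp only [map_add, map_smul, map_sub, smul_eq_mul]
      rw [ih i hi.le, ih (i + 1) hi, hφe (k + 1) (T.p k i + o) ha, Hf, hp, if_neg hs,
        Nat.add_sub_cancel_left]
      field_simp
      ring

end Tower

end Pool.Agent.P.MP_158617_an
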