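import Mathlib

/-!
Lipschitz functions vanishing at a base point, evaluation functionals and the Lipschitz free space.
-/

namespace Pool.Agent.P.MP_158617_an

variable {X : Type*} [MetricSpace X]

/-- The real Lipschitz functions on `X` that vanish at `x₀`, as a linear subspace of `X → ℝ`. -/
def lipSubmodule (x₀ : X) : Submodule ℝ (X → ℝ) where
  carrier := {f | f x₀ = 0 ∧ ∃ K : ℝ, ∀ x y, |f x - f y| ≤ K * dist x y}
  add_mem' := by
    rintro f g ⟨hf0, K, hK⟩ ⟨hg0, L, hL⟩
    refine ⟨by simp [hf0, hg0], K + L, fun x y => ?_⟩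
    have h1 := hK x y
    have h2 := hL x y
    have h3 : (f + g) x - (f + g) y = (f x - f y) + (g x - g y) := by simp only [Pi.add_apply]; ring
    rw [h3]
    have h4 := abs_add_le (f x - f y) (g x - g y)
    linarith
  zero_mem' := ⟨rfl, 0, fun x y => by simp⟩
  smul_mem' := by
    rintro c f ⟨hf0, K, hK⟩
    refine ⟨by simp [hf0], |c| * K, fun x y => ?_⟩
    have h3 : (c • f) x - (c • f) y = c * (f x - f y) := by
      simp only [Pi.smul_apply, smul_eq_mul]; ring
    rw [h3, abs_mul, mul_assoc]
    exact mul_le_mul_of_nonneg_left (hK x y) (abs_nonneg c)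

/-- The space `Lip₀(X)` of real Lipschitz functions on `X` vanishing at `x₀`. -/
def Lip0 (x₀ : X) : Type _ := ↥(lipSubmodule x₀)

instance (x₀ : X) : AddCommGroup (Lip0 x₀) := (lipSubmodule x₀).addCommGroup

instance (x₀ : X) : Module ℝ (Lip0 x₀) := (lipSubmodule x₀).module

/-- The function underlying an element of `Lip₀(X)`. -/
def Lip0.fn {x₀ : X} (f : Lip0 x₀) : X → ℝ := (show ↥(lipSubmodule x₀) from f).1

/-- The best Lipschitz constant: the supremum of `|f x - f y| / d(x, y)`
(pairs with `x = y` contribute `0 / 0 = 0`). -/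
noncomputable def lipConst (f : X → ℝ) : ℝ := ⨆ p : X × X, |f p.1 - f p.2| / dist p.1 p.2

theorem Lip0.bdd {x₀ : X} (f : Lip0 x₀) :
    BddAbove (Set.range fun p : X × X => |f.fn p.1 - f.fn p.2| / dist p.1 p.2) := by
  obtain ⟨K, hK⟩ := (show ↥(lipSubmodule x₀) from f).2.2
  refine ⟨|K|, ?_⟩
  rintro _ ⟨p, rfl⟩
  refine div_le_of_le_mul₀ dist_nonneg (abs_nonneg K) ((hK p.1 p.2).trans ?_)
  exact mul_le_mul_of_nonneg_right (le_abs_self K) dist_nonneg

theorem Lip0.abs_sub_le {x₀ : X} (f : Lip0 x₀) (x y : X) :
    |f.fn x - f.fn y| ≤ lipConst f.fn * dist x y := by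
  rcases eq_or_ne x y with rfl | h
  · simp
  · exact (div_le_iff₀ (dist_pos.2 h)).1 (le_ciSup f.bdd (x, y))

theorem lipConst_le {f : X → ℝ} {K : ℝ} (hK : 0 ≤ K) (h : ∀ x y, |f x - f y| ≤ K * dist x y) :
    lipConst f ≤ K :=
  Real.iSup_le (fun p => div_le_of_le_mul₀ dist_nonneg hK (h p.1 p.2)) hK

theorem lipConst_nonneg (f : X → ℝ) : 0 ≤ lipConst f :=
  Real.iSup_nonneg fun _ => div_nonneg (abs_nonneg _) dist_nonneg

/-- `Lip₀(X)` is normed by the best Lipschitz constant. -/
noncomputable instance (x₀ : X) : NormedAddCommGroup (Lip0 x₀) :=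
  AddGroupNorm.toNormedAddCommGroup
    { toFun := fun f => lipConst f.fn
      map_zero' := le_antisymm (lipConst_le le_rfl fun x y => by
        change |(0 : ℝ) - 0| ≤ _
        simp) (lipConst_nonneg _)
      add_le' := fun f g => lipConst_le (add_nonneg (lipConst_nonneg _) (lipConst_nonneg _))
        fun x y => by
          have h1 := f.abs_sub_le x y
          have h2 := g.abs_sub_le x y
          have h3 : (f + g).fn x - (f + g).fn y = (f.fn x - f.fn y) + (g.fn x - g.fn y) := by
            change (f.fn x + g.fn x) - (f.fn y + g.fn y) = _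
            ring
          rw [h3]
          have h4 := abs_add_le (f.fn x - f.fn y) (g.fn x - g.fn y)
          linarith
      neg' := fun f => by
        unfold lipConst
        congr 1
        funext p
        change |-f.fn p.1 - -f.fn p.2| / _ = _
        rw [← abs_neg]
        congr 2
        ring
      eq_zero_of_map_eq_zero' := fun f hf => by
        apply Subtype.ext
        funext x
        have h1 := f.abs_sub_le x x₀
        have h0 : f.fn x₀ = 0 := (show ↥(lipSubmodule x₀) from f).2.1
        rw [hf, zero_mul, h0, sub_zero] at h1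
        exact abs_nonpos_iff.1 h1 }

noncomputable instance (x₀ : X) : NormedSpace ℝ (Lip0 x₀) where
  norm_smul_le c f := lipConst_le (mul_nonneg (norm_nonneg c) (lipConst_nonneg _)) fun x y => by
    have h3 : (c • f).fn x - (c • f).fn y = c * (f.fn x - f.fn y) := by
      change c * f.fn x - c * f.fn y = _
      ring
    rw [h3, abs_mul, mul_assoc]
    exact mul_le_mul_of_nonneg_left (f.abs_sub_le x y) (abs_nonneg c)

/-- The evaluation functional `δ_x` on `Lip₀(X)`. -/
noncomputable def delta (x₀ x : X) : StrongDual ℝ (Lip0 x₀) :=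
  LinearMap.mkContinuous
    { toFun := fun f => f.fn x
      map_add' := fun _ _ => rfl
      map_smul' := fun _ _ => rfl } (dist x x₀) fun f => by
    have h1 := f.abs_sub_le x x₀
    have h0 : f.fn x₀ = 0 := (show ↥(lipSubmodule x₀) from f).2.1
    rw [h0, sub_zero, mul_comm] at h1
    exact h1

/-- The Lipschitz free space `ℱ(X)`: the closed linear span of the evaluation functionals `δ_x`
in the dual Banach space `Lip₀(X)*`. -/
noncomputable def freeSpace (x₀ : X) : Submodule ℝ (StrongDual ℝ (Lip0 x₀)) :=
  (Submodule.span ℝ (Set.range (delta x₀))).topologicalClosure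

end Pool.Agent.P.MP_158617_an
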