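import Pool.Agent.P.MP_158617_an.Ind

/-!
A forest of binary splittings realised by intervals of the real line, and the resulting system of
normalised indicator functions in an `L¹` space.
-/

namespace Pool.Agent.P.MP_158617_an

open MeasureTheory Set Filter Topology Function
open scoped ENNReal

/-- Combinatorial data: nodes are pairs (level, index); a split node `(k, i)` has the two children
`(k + 1, q k i)` and `(k + 1, q k i + 1)`. -/
structure Forest where
  G : ℕ → ℕ → Prop
  Sp : ℕ → ℕ → Prop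
  q : ℕ → ℕ → ℕ
  par : ℕ → ℕ → ℕ
  good : ∀ k i, Sp k i → G k i
  good₁ : ∀ k i, Sp k i → G (k + 1) (q k i)
  good₂ : ∀ k i, Sp k i → G (k + 1) (q k i + 1)
  par₁ : ∀ k i, Sp k i → par k (q k i) = i
  par₂ : ∀ k i, Sp k i → par k (q k i + 1) = i
  child : ∀ k j, Sp k (par k j) → j = q k (par k j) ∨ j = q k (par k j) + 1

namespace Forest

variable (T : Forest)

open scoped Classical in
/-- Length of the interval attached to a node. -/
noncomputable def len : ℕ → ℕ → ℝ
  | 0, _ => 1
  | k + 1, j => if T.Sp k (T.par k j) then len k (T.par k j) / 2 else 1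

open scoped Classical in
/-- Left end of the interval attached to a node. -/
noncomputable def lo : ℕ → ℕ → ℝ
  | 0, j => (Nat.pair 0 j : ℕ)
  | k + 1, j => if T.Sp k (T.par k j) then
      (if j = T.q k (T.par k j) then lo k (T.par k j)
        else lo k (T.par k j) + T.len k (T.par k j) / 2)
      else (Nat.pair (k + 1) j : ℕ)

open scoped Classical in
/-- The root of the binary tree containing a node. -/
noncomputable def root : ℕ → ℕ → ℕ × ℕ
  | 0, j => (0, j)
  | k + 1, j => if T.Sp k (T.par k j) then root k (T.par k j) else (k + 1, j)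

/-- The interval attached to a node. -/
def A (k j : ℕ) : Set ℝ := Ico (T.lo k j) (T.lo k j + T.len k j)

/-- The unit interval reserved for a root. -/
def R (p : ℕ × ℕ) : Set ℝ := Ico ((Nat.pair p.1 p.2 : ℕ) : ℝ) ((Nat.pair p.1 p.2 : ℕ) + 1)

theorem len_pos : ∀ k j, 0 < T.len k j
  | 0, _ => one_pos
  | k + 1, j => by
    unfold len
    split_ifs
    · exact half_pos (len_pos k _)
    · exact one_pos

theorem len_child {k j : ℕ} (h : T.Sp k (T.par k j)) :
    T.len (k + 1) j = T.len k (T.par k j) / 2 := by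
  rw [len, if_pos h]

theorem A_child₁ {k i : ℕ} (h : T.Sp k i) :
    T.A (k + 1) (T.q k i) = Ico (T.lo k i) (T.lo k i + T.len k i / 2) := by
  have h1 := T.par₁ k i h
  have h2 : T.Sp k (T.par k (T.q k i)) := by rwa [h1]
  unfold A
  rw [lo, len, if_pos h2, if_pos h2, h1, if_pos rfl]

theorem A_child₂ {k i : ℕ} (h : T.Sp k i) :
    T.A (k + 1) (T.q k i + 1) = Ico (T.lo k i + T.len k i / 2) (T.lo k i + T.len k i) := by
  have h1 := T.par₂ k i h
  have h2 : T.Sp k (T.par k (T.q k i + 1)) := by rwa [h1]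
  unfold A
  rw [lo, len, if_pos h2, if_pos h2, h1, if_neg (Nat.succ_ne_self _)]
  congr 1
  ring

theorem A_split {k i : ℕ} (h : T.Sp k i) :
    T.A k i = T.A (k + 1) (T.q k i) ∪ T.A (k + 1) (T.q k i + 1) := by
  have := T.len_pos k i
  rw [T.A_child₁ h, T.A_child₂ h, Ico_union_Ico_eq_Ico (by linarith) (by linarith)]
  rfl

theorem A_split_disjoint {k i : ℕ} (h : T.Sp k i) :
    Disjoint (T.A (k + 1) (T.q k i)) (T.A (k + 1) (T.q k i + 1)) := by
  rw [T.A_child₁ h, T.A_child₂ h]
  exact Ico_disjoint_Ico_same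

theorem A_subset_par {k j : ℕ} (h : T.Sp k (T.par k j)) : T.A (k + 1) j ⊆ T.A k (T.par k j) := by
  rw [T.A_split h]
  rcases T.child k j h with h1 | h1
  · rw [← h1]
    exact subset_union_left
  · rw [← h1]
    exact subset_union_right

theorem A_root {k j : ℕ} (h : ¬ T.Sp k (T.par k j)) : T.A (k + 1) j = R (k + 1, j) := by
  unfold A R
  rw [lo, len, if_neg h, if_neg h]

theorem A_subset_root : ∀ k j, T.A k j ⊆ R (T.root k j)
  | 0, j => by
    unfold A R
    rw [lo, len, root]
  | k + 1, j => by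
    by_cases h : T.Sp k (T.par k j)
    · rw [root, if_pos h]
      exact (T.A_subset_par h).trans (A_subset_root k _)
    · rw [root, if_neg h, T.A_root h]

theorem root_le : ∀ k j, (T.root k j).1 ≤ k
  | 0, j => by rw [root]
  | k + 1, j => by
    rw [root]
    split_ifs
    · exact (root_le k _).trans (Nat.le_succ k)
    · exact le_rfl

theorem R_disjoint {p p' : ℕ × ℕ} (h : p ≠ p') : Disjoint (R p) (R p') := by
  have h1 : Nat.pair p.1 p.2 ≠ Nat.pair p'.1 p'.2 := by
    intro h2
    rw [Nat.pair_eq_pair] at h2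
    exact h (Prod.ext h2.1 h2.2)
  unfold R
  rw [Set.disjoint_left]
  intro x hx hx'
  rcases lt_or_gt_of_ne h1 with h2 | h2
  · have : ((Nat.pair p.1 p.2 : ℕ) : ℝ) + 1 ≤ (Nat.pair p'.1 p'.2 : ℕ) := by exact_mod_cast h2
    linarith [hx.2, hx'.1]
  · have : ((Nat.pair p'.1 p'.2 : ℕ) : ℝ) + 1 ≤ (Nat.pair p.1 p.2 : ℕ) := by exact_mod_cast h2
    linarith [hx.1, hx'.2]

theorem disjoint_new {k j m i : ℕ} (h : ¬ T.Sp k (T.par k j)) (hm : m ≤ k) :
    Disjoint (T.A m i) (T.A (k + 1) j) := by
  rw [T.A_root h]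
  refine (R_disjoint ?_).mono_left (T.A_subset_root m i)
  intro h1
  have h2 := T.root_le m i
  rw [h1] at h2
  simp only at h2
  omega

theorem disjoint_same : ∀ k i j, i ≠ j → Disjoint (T.A k i) (T.A k j)
  | 0, i, j, hij => by
    refine (R_disjoint ?_).mono (T.A_subset_root 0 i) (T.A_subset_root 0 j)
    rw [root, root]
    simpa using hij
  | k + 1, i, j, hij => by
    by_cases hi : T.Sp k (T.par k i)
    · by_cases hj : T.Sp k (T.par k j)
      · by_cases hp : T.par k i = T.par k j
        · have hd := T.A_split_disjoint hi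
          have h1 := T.child k i hi
          have h2 := T.child k j hj
          rw [← hp] at h2
          rcases h1 with h1 | h1 <;> rcases h2 with h2 | h2
          · exact absurd (h1.trans h2.symm) hij
          · rw [h2]
            nth_rewrite 1 [h1]
            exact hd
          · rw [h2]
            nth_rewrite 1 [h1]
            exact hd.symm
          · exact absurd (h1.trans h2.symm) hij
        · exact (disjoint_same k _ _ hp).mono (T.A_subset_par hi) (T.A_subset_par hj)
      · exact (T.disjoint_new hj le_rfl).mono_left (T.A_subset_par hi)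
    · by_cases hj : T.Sp k (T.par k j)
      · exact ((T.disjoint_new hi le_rfl).mono_left (T.A_subset_par hj)).symm
      · rw [T.A_root hi, T.A_root hj]
        exact R_disjoint (by simpa using hij)

theorem laminar (m i : ℕ) : ∀ k j, m ≤ k → T.A k j ⊆ T.A m i ∨ Disjoint (T.A m i) (T.A k j) := by
  intro k
  induction k with
  | zero =>
    intro j hm
    obtain rfl : m = 0 := by omega
    by_cases h : i = j
    · left
      rw [h]
    · right
      exact T.disjoint_same 0 i j h
  | succ k ih =>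
    intro j hm
    rcases hm.eq_or_lt with rfl | hm
    · by_cases h : i = j
      · left
        rw [h]
      · right
        exact T.disjoint_same _ i j h
    · by_cases h : T.Sp k (T.par k j)
      · rcases ih (T.par k j) (by omega) with h1 | h1
        · exact Or.inl ((T.A_subset_par h).trans h1)
        · exact Or.inr (h1.mono_right (T.A_subset_par h))
      · exact Or.inr (T.disjoint_new h (by omega))

theorem disjoint_leaf {m i : ℕ} (hi : ¬ T.Sp m i) :
    ∀ k j, m < k → Disjoint (T.A m i) (T.A k j) := by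
  intro k
  induction k with
  | zero => intro j hm; omega
  | succ k ih =>
    intro j hm
    by_cases h : T.Sp k (T.par k j)
    · refine Disjoint.mono_right (T.A_subset_par h) ?_
      rcases (Nat.lt_succ_iff.1 hm).eq_or_lt with rfl | hm'
      · refine T.disjoint_same _ _ _ ?_
        rintro rfl
        exact hi h
      · exact ih _ hm'
    · exact T.disjoint_new h (by omega)

/-- The abstract conclusion: a system of vectors indexed by the nodes. -/
structure IsSystem {E : Type*} [NormedAddCommGroup E] [NormedSpace ℝ E] (e : ℕ → ℕ → E) :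
    Prop where
  norm_le : ∀ k j, ‖e k j‖ ≤ 1
  split : ∀ k i, T.Sp k i → (2 : ℝ) • e k i = e (k + 1) (T.q k i) + e (k + 1) (T.q k i + 1)
  lift : ∀ (H : ℕ → ℕ → ℝ) (C : ℝ), 0 ≤ C → (∀ k j, T.G k j → |H k j| ≤ C) →
    (∀ k i, T.Sp k i → 2 * H k i = H (k + 1) (T.q k i) + H (k + 1) (T.q k i + 1)) →
    ∃ φ : E →L[ℝ] ℝ, ‖φ‖ ≤ C ∧ ∀ k j, T.G k j → φ (e k j) = H k j
  dense : ∀ S : Submodule ℝ E, IsClosed (S : Set E) → (∀ k j, T.G k j → e k j ∈ S) → ∀ x, x ∈ S

theorem exists_system_aux {Z : Type*} [mZ : MeasurableSpace Z] (μ : Measure Z)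
    (A : ℕ → ℕ → Set Z) (ℓ : ℕ → ℕ → ℝ) (hℓ : ∀ k j, 0 < ℓ k j)
    (hgen : mZ = MeasurableSpace.generateFrom {s | ∃ k j, T.G k j ∧ s = A k j})
    (hμ : ∀ k j, T.G k j → μ (A k j) = ENNReal.ofReal (ℓ k j))
    (hcov : μ (⋃₀ {s | ∃ k j, T.G k j ∧ s = A k j})ᶜ = 0)
    (hsplit : ∀ k i, T.Sp k i → A k i = A (k + 1) (T.q k i) ∪ A (k + 1) (T.q k i + 1))
    (hlen₁ : ∀ k i, T.Sp k i → ℓ (k + 1) (T.q k i) = ℓ k i / 2)
    (hlen₂ : ∀ k i, T.Sp k i → ℓ (k + 1) (T.q k i + 1) = ℓ k i / 2)
    (hsame : ∀ k i j, i ≠ j → Disjoint (A k i) (A k j))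
    (hlam : ∀ m i k j, m ≤ k → A k j ⊆ A m i ∨ Disjoint (A m i) (A k j))
    (hleaf : ∀ m i, ¬ T.Sp m i → ∀ k j, m < k → Disjoint (A m i) (A k j)) :
    ∃ e : ℕ → ℕ → Lp ℝ 1 μ, T.IsSystem e := by
  classical
  have hm : ∀ k j, T.G k j → MeasurableSet (A k j) := fun k j h => by
    rw [hgen]
    exact MeasurableSpace.measurableSet_generateFrom ⟨k, j, h, rfl⟩
  have hf : ∀ k j, T.G k j → μ (A k j) ≠ ∞ := fun k j h => by
    rw [hμ k j h]
    exact ENNReal.ofReal_ne_top
  have hr : ∀ k j, T.G k j → μ.real (A k j) = ℓ k j := fun k j h => by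
    rw [measureReal_def, hμ k j h, ENNReal.toReal_ofReal (hℓ k j).le]
  let e : ℕ → ℕ → Lp ℝ 1 μ := fun k j => if T.G k j then (ℓ k j)⁻¹ • ind μ (A k j) else 0
  have he : ∀ k j, T.G k j → e k j = (ℓ k j)⁻¹ • ind μ (A k j) := fun k j h => if_pos h
  have hesplit : ∀ k i, T.Sp k i →
      (2 : ℝ) • e k i = e (k + 1) (T.q k i) + e (k + 1) (T.q k i + 1) := by
    intro k i h
    have g0 := T.good k i h
    have g1 := T.good₁ k i h
    have g2 := T.good₂ k i h
    rw [he _ _ g0, he _ _ g1, he _ _ g2, hlen₁ k i h, hlen₂ k i h, hsplit k i h,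
      ind_union (hm _ _ g1) (hm _ _ g2) (hf _ _ g1) (hf _ _ g2)
        (hsame _ _ _ (Nat.succ_ne_self _).symm), ← smul_add, smul_smul]
    congr 1
    field_simp
  have hdense : ∀ S : Submodule ℝ (Lp ℝ 1 μ), IsClosed (S : Set (Lp ℝ 1 μ)) →
      (∀ k j, T.G k j → e k j ∈ S) → ∀ x, x ∈ S := by
    intro S hS hmem
    refine eq_top_of_ind_mem S hS _ hgen ?_ ?_ ?_
      (fun n => if T.G n.unpair.1 n.unpair.2 then A n.unpair.1 n.unpair.2 else ∅) ?_ ?_
    · rintro _ ⟨m, i, hi, rfl⟩ _ ⟨k, j, hj, rfl⟩ hne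
      rcases le_total m k with h | h
      · rcases hlam m i k j h with h1 | h1
        · exact ⟨k, j, hj, inter_eq_right.2 h1⟩
        · exact absurd h1.inter_eq hne.ne_empty
      · rcases hlam k j m i h with h1 | h1
        · exact ⟨m, i, hi, inter_eq_left.2 h1⟩
        · exact absurd h1.symm.inter_eq hne.ne_empty
    · rintro _ ⟨k, j, hj, rfl⟩
      exact hf k j hj
    · rintro _ ⟨k, j, hj, rfl⟩
      have h1 := S.smul_mem (ℓ k j) (hmem k j hj)
      rwa [he k j hj, smul_smul, mul_inv_cancel₀ (hℓ k j).ne', one_smul] at h1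
    · intro n
      by_cases h : T.G n.unpair.1 n.unpair.2
      · left
        simp only [if_pos h]
        exact ⟨_, _, h, rfl⟩
      · right
        simp only [if_neg h]
    · refine measure_mono_null (compl_subset_compl.2 ?_) hcov
      rintro x ⟨_, ⟨k, j, hj, rfl⟩, hx⟩
      refine mem_iUnion.2 ⟨Nat.pair k j, ?_⟩
      simp only [Nat.unpair_pair, if_pos hj]
      exact hx
  refine ⟨e, ?_, hesplit, ?_, hdense⟩
  · intro k j
    by_cases h : T.G k j
    · rw [he k j h, norm_smul, norm_ind (hm k j h) (hf k j h), hr k j h, norm_inv,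
        Real.norm_of_nonneg (hℓ k j).le, inv_mul_cancel₀ (hℓ k j).ne']
    · simp only [e, if_neg h, norm_zero]
      exact zero_le_one
  · intro H C hC hH hHs
    let ι := {p : ℕ × ℕ // T.G p.1 p.2}
    let u : ι → Lp ℝ 1 μ × ℝ := fun p => (e p.1.1 p.1.2, H p.1.1 p.1.2)
    let atom : ℕ → Set ι := fun K => {p | p.1.1 = K ∨ (p.1.1 < K ∧ ¬ T.Sp p.1.1 p.1.2)}
    have hspan : ∀ K d (p : ι), p.1.1 + d = K → u p ∈ Submodule.span ℝ (u '' atom K) := by
      intro K d
      induction d with
      | zero =>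
        intro p hp
        exact Submodule.subset_span ⟨p, Or.inl hp, rfl⟩
      | succ d ih =>
        intro p hp
        by_cases h : T.Sp p.1.1 p.1.2
        · have h1 := ih ⟨(p.1.1 + 1, T.q p.1.1 p.1.2), T.good₁ _ _ h⟩ (by simp only; omega)
          have h2 := ih ⟨(p.1.1 + 1, T.q p.1.1 p.1.2 + 1), T.good₂ _ _ h⟩ (by simp only; omega)
          have h3 := Submodule.smul_mem _ (1 / 2 : ℝ) (Submodule.add_mem _ h1 h2)
          convert h3 using 1
          simp only [u, Prod.mk_add_mk, Prod.smul_mk, ← hesplit _ _ h, ← hHs _ _ h, smul_smul,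
            smul_eq_mul]
          congr 1
          · simp
          · ring
        · exact Submodule.subset_span ⟨p, Or.inr ⟨by omega, h⟩, rfl⟩
    have hatom : ∀ K, ∀ y ∈ Submodule.span ℝ (u '' atom K), |y.2| ≤ C * ‖y.1‖ := by
      intro K y hy
      obtain ⟨b, hb, rfl⟩ := (Finsupp.mem_span_image_iff_linearCombination ℝ).1 hy
      have hb' : ∀ p ∈ b.support, p ∈ atom K := fun p hp => hb (Finset.mem_coe.2 hp)
      have hd : Set.Pairwise (↑b.support) (Disjoint on fun p : ι => A p.1.1 p.1.2) := by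
        intro p hp p' hp' hne
        have h1 := hb' p hp
        have h2 := hb' p' hp'
        rcases lt_trichotomy p.1.1 p'.1.1 with h | h | h
        · refine hleaf _ _ ?_ _ _ h
          rcases h1 with h1 | h1
          · rcases h2 with h2 | h2 <;> omega
          · exact h1.2
        · change Disjoint (A p.1.1 p.1.2) (A p'.1.1 p'.1.2)
          rw [h]
          refine hsame _ _ _ fun h3 => hne (Subtype.ext (Prod.ext h h3))
        · refine (hleaf _ _ ?_ _ _ h).symm
          rcases h2 with h2 | h2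
          · rcases h1 with h1 | h1 <;> omega
          · exact h2.2
      have h1 : (Finsupp.linearCombination ℝ u b).1 = ∑ p ∈ b.support, b p • e p.1.1 p.1.2 := by
        simp only [Finsupp.linearCombination_apply, Finsupp.sum, Prod.fst_sum, Prod.smul_fst, u]
      have h2 : (Finsupp.linearCombination ℝ u b).2 = ∑ p ∈ b.support, b p * H p.1.1 p.1.2 := by
        simp only [Finsupp.linearCombination_apply, Finsupp.sum, Prod.snd_sum, Prod.smul_snd, u,
          smul_eq_mul]
      have h3 := sum_abs_setInt_le b.support (fun p : ι => A p.1.1 p.1.2)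
        (fun p _ => hm _ _ p.2) hd (Finsupp.linearCombination ℝ u b).1
      have h4 : ∀ p ∈ b.support,
          setInt μ (A p.1.1 p.1.2) (Finsupp.linearCombination ℝ u b).1 = b p := by
        intro p hp
        rw [h1, map_sum, Finset.sum_eq_single p]
        · rw [map_smul, he _ _ p.2, map_smul, setInt_ind (hm _ _ p.2) (hm _ _ p.2) (hf _ _ p.2),
            inter_self, hr _ _ p.2, smul_eq_mul, smul_eq_mul, inv_mul_cancel₀ (hℓ _ _).ne',
            mul_one]
        · intro p' hp' hne
          have h5 : Disjoint (A p'.1.1 p'.1.2) (A p.1.1 p.1.2) := hd hp' hp hne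
          rw [map_smul, he _ _ p'.2, map_smul, setInt_ind (hm _ _ p.2) (hm _ _ p'.2) (hf _ _ p'.2),
            h5.inter_eq]
          simp
        · intro h
          exact absurd hp h
      rw [Finset.sum_congr rfl fun p hp => by rw [h4 p hp]] at h3
      rw [h2]
      calc |∑ p ∈ b.support, b p * H p.1.1 p.1.2| ≤ ∑ p ∈ b.support, |b p * H p.1.1 p.1.2| :=
            Finset.abs_sum_le_sum_abs _ _
        _ ≤ ∑ p ∈ b.support, C * |b p| := Finset.sum_le_sum fun p _ => by
            rw [abs_mul, mul_comm]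
            exact mul_le_mul_of_nonneg_right (hH _ _ p.2) (abs_nonneg _)
        _ = C * ∑ p ∈ b.support, |b p| := by rw [Finset.mul_sum]
        _ ≤ C * ‖(Finsupp.linearCombination ℝ u b).1‖ := mul_le_mul_of_nonneg_left h3 hC
    let E₁ : (ι →₀ ℝ) →ₗ[ℝ] Lp ℝ 1 μ := Finsupp.linearCombination ℝ fun p : ι => e p.1.1 p.1.2
    let E₂ : (ι →₀ ℝ) →ₗ[ℝ] ℝ := Finsupp.linearCombination ℝ fun p : ι => H p.1.1 p.1.2
    have hbound : ∀ b, ‖E₂ b‖ ≤ C * ‖E₁ b‖ := by
      intro b
      let K := b.support.sup fun p => p.1.1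
      have h1 : Finsupp.linearCombination ℝ u b ∈ Submodule.span ℝ (u '' atom K) := by
        rw [Finsupp.linearCombination_apply, Finsupp.sum]
        refine Submodule.sum_mem _ fun p hp => Submodule.smul_mem _ _ ?_
        have h2 : p.1.1 ≤ K := Finset.le_sup (f := fun p : ι => p.1.1) hp
        exact hspan K (K - p.1.1) p (by omega)
      have h2 := hatom K _ h1
      have h3 : (Finsupp.linearCombination ℝ u b).1 = E₁ b := by
        simp only [Finsupp.linearCombination_apply, Finsupp.sum, Prod.fst_sum, Prod.smul_fst, u, E₁]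
      have h4 : (Finsupp.linearCombination ℝ u b).2 = E₂ b := by
        simp only [Finsupp.linearCombination_apply, Finsupp.sum, Prod.snd_sum, Prod.smul_snd, u, E₂]
      rwa [h3, h4] at h2
    have hdr : DenseRange E₁ := by
      intro x
      refine hdense (LinearMap.range E₁).topologicalClosure
        (Submodule.isClosed_topologicalClosure _) (fun k j h => ?_) x
      refine Submodule.le_topologicalClosure _ ⟨Finsupp.single ⟨(k, j), h⟩ 1, ?_⟩
      simp [E₁]
    refine ⟨E₂.extendOfNorm E₁, LinearMap.opNorm_extendOfNorm_le hdr hC hbound, fun k j h => ?_⟩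
    have h1 := LinearMap.extendOfNorm_eq hdr ⟨C, hbound⟩ (Finsupp.single ⟨(k, j), h⟩ 1)
    simpa [E₁, E₂] using h1

theorem exists_system : ∃ (mZ : MeasurableSpace ℝ) (μ : @Measure ℝ mZ)
    (e : ℕ → ℕ → Lp ℝ 1 μ), T.IsSystem e := by
  let C : Set (Set ℝ) := {s | ∃ k j, T.G k j ∧ s = T.A k j}
  have hCm : ∀ s ∈ C, MeasurableSet s := by
    rintro _ ⟨k, j, -, rfl⟩
    exact measurableSet_Ico
  have hle : MeasurableSpace.generateFrom C ≤ (inferInstance : MeasurableSpace ℝ) :=
    MeasurableSpace.generateFrom_le hCm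
  have hcount : C.Countable := by
    refine (Set.countable_range fun p : ℕ × ℕ => T.A p.1 p.2).mono ?_
    rintro _ ⟨k, j, -, rfl⟩
    exact ⟨(k, j), rfl⟩
  have hU : MeasurableSet[MeasurableSpace.generateFrom C] (⋃₀ C) :=
    MeasurableSet.sUnion (m := MeasurableSpace.generateFrom C) hcount fun s hs =>
      MeasurableSpace.measurableSet_generateFrom hs
  refine ⟨MeasurableSpace.generateFrom C, (volume.restrict (⋃₀ C)).trim hle, ?_⟩
  refine T.exists_system_aux (mZ := MeasurableSpace.generateFrom C) _ T.A T.len T.len_pos rfl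
    ?_ ?_ (fun k i h => T.A_split h) ?_ ?_ T.disjoint_same T.laminar
    (fun m i h => T.disjoint_leaf h)
  · intro k j h
    have h1 : T.A k j ∈ C := ⟨k, j, h, rfl⟩
    rw [trim_measurableSet_eq hle (MeasurableSpace.measurableSet_generateFrom h1),
      Measure.restrict_apply (hCm _ h1), inter_eq_left.2 (subset_sUnion_of_mem h1)]
    unfold A
    rw [Real.volume_Ico]
    congr 1
    ring
  · rw [trim_measurableSet_eq hle hU.compl, Measure.restrict_apply (hle _ hU.compl)]
    simp [C]
  · intro k i h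
    have h1 := T.par₁ k i h
    rw [T.len_child (by rwa [h1]), h1]
  · intro k i h
    have h1 := T.par₂ k i h
    rw [T.len_child (by rwa [h1]), h1]

end Forest

end Pool.Agent.P.MP_158617_an
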