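import Pool.Agent.P.MP_158617_an.Defs

/-!
A criterion for a Banach space to be isomorphic to a Lipschitz free space.
-/

namespace Pool.Agent.P.MP_158617_an

variable {X : Type*} [MetricSpace X]

theorem Lip0.norm_def {x₀ : X} (f : Lip0 x₀) : ‖f‖ = lipConst f.fn := rfl

theorem Lip0.fn_base {x₀ : X} (f : Lip0 x₀) : f.fn x₀ = 0 :=
  (show ↥(lipSubmodule x₀) from f).2.1

theorem delta_apply (x₀ x : X) (f : Lip0 x₀) : delta x₀ x f = f.fn x := rfl

theorem delta_base (x₀ : X) : delta x₀ x₀ = 0 := by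
  ext f
  simp [delta_apply, f.fn_base]

theorem norm_delta_sub (x₀ x y : X) : ‖delta x₀ x - delta x₀ y‖ ≤ dist x y := by
  refine ContinuousLinearMap.opNorm_le_bound _ dist_nonneg fun f => ?_
  have h := f.abs_sub_le x y
  rw [mul_comm] at h
  simpa [delta_apply, Lip0.norm_def] using h

theorem continuous_delta (x₀ : X) : Continuous (delta x₀) := by
  have : LipschitzWith 1 (delta x₀) := LipschitzWith.of_dist_le_mul fun x y => by
    simpa [dist_eq_norm] using norm_delta_sub x₀ x y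
  exact this.continuous

/-- McShane extension along an indexed family of points. -/
theorem exists_lip_ext {ι : Type*} (v : ι → X) (u : ι → ℝ) {K : ℝ} (hK : 0 ≤ K)
    (h : ∀ i j, |u i - u j| ≤ K * dist (v i) (v j)) :
    ∃ f : X → ℝ, (∀ x y, |f x - f y| ≤ K * dist x y) ∧ ∀ i, f (v i) = u i := by
  classical
  let f₀ : X → ℝ := fun x => if hx : ∃ i, v i = x then u hx.choose else 0
  have hf₀ : ∀ i, f₀ (v i) = u i := by
    intro i
    have hx : ∃ j, v j = v i := ⟨i, rfl⟩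
    have h1 := h hx.choose i
    rw [hx.choose_spec, dist_self, mul_zero] at h1
    have h2 := abs_nonpos_iff.1 h1
    simp only [f₀, dif_pos hx]
    linarith
  have hl : LipschitzOnWith ⟨K, hK⟩ f₀ (Set.range v) := by
    refine LipschitzOnWith.of_dist_le_mul ?_
    rintro _ ⟨i, rfl⟩ _ ⟨j, rfl⟩
    rw [hf₀, hf₀, Real.dist_eq]
    exact h i j
  obtain ⟨g, hg, hfg⟩ := hl.extend_real
  refine ⟨g, fun x y => ?_, fun i => ?_⟩
  · have := hg.dist_le_mul x y
    rwa [Real.dist_eq] at this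
  · rw [← hfg ⟨i, rfl⟩, hf₀]

theorem equiv_of_dense {V E₁ E₂ : Type*} [AddCommGroup V] [Module ℝ V]
    [NormedAddCommGroup E₁] [NormedSpace ℝ E₁] [CompleteSpace E₁]
    [NormedAddCommGroup E₂] [NormedSpace ℝ E₂] [CompleteSpace E₂]
    (e₁ : V →ₗ[ℝ] E₁) (e₂ : V →ₗ[ℝ] E₂) (h₁ : DenseRange e₁) (n₁ : ∃ C, ∀ a, ‖e₂ a‖ ≤ C * ‖e₁ a‖)
    (h₂ : DenseRange e₂) (n₂ : ∃ C, ∀ a, ‖e₁ a‖ ≤ C * ‖e₂ a‖) : Nonempty (E₁ ≃L[ℝ] E₂) :=
  ⟨(LinearEquiv.refl ℝ V).extend e₁ e₂ h₁ n₁ h₂ n₂⟩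

theorem free_iso (x₀ : X) {ι : Type*} (v : ι → X) (hv : DenseRange v) (i₀ : ι)
    {E : Type*} [NormedAddCommGroup E] [NormedSpace ℝ E] [CompleteSpace E] (Φ : ι → E)
    (K K' : ℝ) (hK : 0 ≤ K) (hK' : 0 ≤ K')
    (hlip : ∀ i j, ‖Φ i - Φ j‖ ≤ K * dist (v i) (v j))
    (h0 : Φ i₀ = 0)
    (hlift : ∀ (f : X → ℝ) (L : ℝ), 0 ≤ L → (∀ x y, |f x - f y| ≤ L * dist x y) →
      ∃ φ : E →L[ℝ] ℝ, ‖φ‖ ≤ K' * L ∧ ∀ i, φ (Φ i) = f (v i) - f (v i₀))
    (hdense : Dense (Submodule.span ℝ (Set.range Φ) : Set E)) :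
    Nonempty (freeSpace x₀ ≃L[ℝ] E) := by
  classical
  have hmem : ∀ x, delta x₀ x ∈ freeSpace x₀ := fun x =>
    Submodule.le_topologicalClosure _ (Submodule.subset_span ⟨x, rfl⟩)
  let m : ι → freeSpace x₀ := fun i =>
    ⟨delta x₀ (v i) - delta x₀ (v i₀), Submodule.sub_mem _ (hmem _) (hmem _)⟩
  let e₁ : (ι →₀ ℝ) →ₗ[ℝ] freeSpace x₀ := Finsupp.linearCombination ℝ m
  let e₂ : (ι →₀ ℝ) →ₗ[ℝ] E := Finsupp.linearCombination ℝ Φ
  have hcompl : CompleteSpace (freeSpace x₀) :=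
    (Submodule.isClosed_topologicalClosure _).completeSpace_coe
  have he₁ : ∀ (a : ι →₀ ℝ) (f : Lip0 x₀),
      (e₁ a : StrongDual ℝ (Lip0 x₀)) f = a.sum fun i c => c * (f.fn (v i) - f.fn (v i₀)) := by
    intro a f
    simp only [e₁, Finsupp.linearCombination_apply, Finsupp.sum, Submodule.coe_sum,
      sum_apply, Submodule.coe_smul, smul_apply,
      smul_eq_mul, m, sub_apply, delta_apply]
  have he₂ : ∀ (a : ι →₀ ℝ) (φ : E →L[ℝ] ℝ), φ (e₂ a) = a.sum fun i c => c * φ (Φ i) := by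
    intro a φ
    simp only [e₂, Finsupp.linearCombination_apply, Finsupp.sum, map_sum, map_smul, smul_eq_mul]
  have hd₁ : DenseRange e₁ := by
    let S : Submodule ℝ (StrongDual ℝ (Lip0 x₀)) :=
      ((LinearMap.range e₁).map (freeSpace x₀).subtype).topologicalClosure
    have h1 : ∀ x, delta x₀ x - delta x₀ (v i₀) ∈ S := by
      intro x
      refine hv.induction_on (p := fun x => delta x₀ x - delta x₀ (v i₀) ∈ S) x ?_ ?_
      · exact (Submodule.isClosed_topologicalClosure _).preimage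
          ((continuous_delta x₀).sub continuous_const)
      · intro i
        refine Submodule.le_topologicalClosure _ ⟨m i, ⟨Finsupp.single i 1, ?_⟩, rfl⟩
        simp [e₁]
    have h2 : ∀ x, delta x₀ x ∈ S := by
      intro x
      have h3 := S.sub_mem (h1 x) (h1 x₀)
      rw [delta_base] at h3
      simpa using h3
    have h3 : freeSpace x₀ ≤ S := by
      refine Submodule.topologicalClosure_minimal _ ?_ (Submodule.isClosed_topologicalClosure _)
      rw [Submodule.span_le]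
      rintro _ ⟨x, rfl⟩
      exact h2 x
    unfold DenseRange
    rw [Subtype.dense_iff]
    intro y hy
    exact h3 hy
  have hd₂ : DenseRange e₂ := by
    unfold DenseRange
    have : Set.range e₂ = (Submodule.span ℝ (Set.range Φ) : Set E) := by
      rw [← Finsupp.range_linearCombination]
      rfl
    rwa [this]
  have hn₁ : ∀ a, ‖e₂ a‖ ≤ K * ‖e₁ a‖ := by
    intro a
    refine NormedSpace.norm_le_dual_bound ℝ _ (mul_nonneg hK (norm_nonneg (e₁ a))) fun φ => ?_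
    obtain ⟨f, hf, hfv⟩ := exists_lip_ext v (fun i => φ (Φ i)) (K := ‖φ‖ * K)
      (mul_nonneg (norm_nonneg _) hK) (fun i j => by
        rw [← map_sub, mul_assoc]
        exact (φ.le_opNorm _).trans (mul_le_mul_of_nonneg_left (hlip i j) (norm_nonneg _)))
    have hf' : ∀ x y, |(f x - f x₀) - (f y - f x₀)| ≤ ‖φ‖ * K * dist x y := by
      intro x y
      rw [sub_sub_sub_cancel_right]
      exact hf x y
    let g : Lip0 x₀ := (⟨fun x => f x - f x₀, by simp, _, hf'⟩ : ↥(lipSubmodule x₀))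
    have hg : ‖g‖ ≤ ‖φ‖ * K := lipConst_le (mul_nonneg (norm_nonneg _) hK) hf'
    have h1 : φ (e₂ a) = (e₁ a : StrongDual ℝ (Lip0 x₀)) g := by
      rw [he₁, he₂]
      refine Finsupp.sum_congr fun i _ => ?_
      change _ = a i * ((f (v i) - f x₀) - (f (v i₀) - f x₀))
      rw [hfv, hfv, h0, map_zero]
      ring
    rw [h1]
    calc ‖(e₁ a : StrongDual ℝ (Lip0 x₀)) g‖ ≤ ‖(e₁ a : StrongDual ℝ (Lip0 x₀))‖ * ‖g‖ :=
          ContinuousLinearMap.le_opNorm _ _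
      _ ≤ ‖(e₁ a : StrongDual ℝ (Lip0 x₀))‖ * (‖φ‖ * K) :=
          mul_le_mul_of_nonneg_left hg (norm_nonneg _)
      _ = K * ‖e₁ a‖ * ‖φ‖ := by
          rw [Submodule.coe_norm]
          ring
  have hn₂ : ∀ a, ‖e₁ a‖ ≤ K' * ‖e₂ a‖ := by
    intro a
    rw [Submodule.coe_norm]
    refine ContinuousLinearMap.opNorm_le_bound _ (mul_nonneg hK' (norm_nonneg _)) fun f => ?_
    obtain ⟨φ, hφ, hφv⟩ := hlift f.fn (lipConst f.fn) (lipConst_nonneg _) f.abs_sub_le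
    have h1 : (e₁ a : StrongDual ℝ (Lip0 x₀)) f = φ (e₂ a) := by
      rw [he₁, he₂]
      refine Finsupp.sum_congr fun i _ => ?_
      rw [hφv]
    rw [h1]
    calc ‖φ (e₂ a)‖ ≤ ‖φ‖ * ‖e₂ a‖ := φ.le_opNorm _
      _ ≤ K' * lipConst f.fn * ‖e₂ a‖ := mul_le_mul_of_nonneg_right hφ (norm_nonneg _)
      _ = K' * ‖e₂ a‖ * ‖f‖ := by
          rw [Lip0.norm_def]
          ring
  exact @equiv_of_dense _ (freeSpace x₀) E _ _ _ _ hcompl _ _ _ e₁ e₂ hd₁ ⟨K, hn₁⟩ hd₂ ⟨K', hn₂⟩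

end Pool.Agent.P.MP_158617_an
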