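import Mathlib

/-!
Indicator functions in `L¹`: a density criterion and a lower norm bound for disjoint sets.
-/

namespace Pool.Agent.P.MP_158617_an

open MeasureTheory Set Filter Topology Function
open scoped ENNReal symmDiff

variable {Z : Type*} [mZ : MeasurableSpace Z] (μ : Measure Z)

open scoped Classical in
/-- The indicator of a measurable set of finite measure as an element of `L¹`. -/
noncomputable def ind (s : Set Z) : Lp ℝ 1 μ :=
  if h : MeasurableSet s ∧ μ s ≠ ∞ then indicatorConstLp 1 h.1 h.2 (1 : ℝ) else 0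

variable {μ}

theorem ind_eq {s : Set Z} (hs : MeasurableSet s) (hμ : μ s ≠ ∞) :
    ind μ s = indicatorConstLp 1 hs hμ (1 : ℝ) := by
  unfold ind
  rw [dif_pos ⟨hs, hμ⟩]

theorem ind_empty : ind μ (∅ : Set Z) = 0 := by
  rw [ind_eq MeasurableSet.empty (by simp), indicatorConstLp_empty]

theorem ind_union {s t : Set Z} (hs : MeasurableSet s) (ht : MeasurableSet t)
    (hμs : μ s ≠ ∞) (hμt : μ t ≠ ∞) (hst : Disjoint s t) :
    ind μ (s ∪ t) = ind μ s + ind μ t := by
  rw [ind_eq hs hμs, ind_eq ht hμt, ← indicatorConstLp_disjoint_union hs ht hμs hμt hst, ind_eq]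

theorem norm_ind {s : Set Z} (hs : MeasurableSet s) (hμ : μ s ≠ ∞) : ‖ind μ s‖ = μ.real s := by
  rw [ind_eq hs hμ, norm_indicatorConstLp one_ne_zero ENNReal.one_ne_top]
  simp

theorem ind_congr {s t : Set Z} (hs : MeasurableSet s) (ht : MeasurableSet t)
    (hμs : μ s ≠ ∞) (h : s =ᵐ[μ] t) : ind μ s = ind μ t := by
  have hμt : μ t ≠ ∞ := by rwa [← measure_congr h]
  rw [ind_eq hs hμs, ind_eq ht hμt]
  exact (indicatorConstLp_inj hs hμs ht hμt one_ne_zero).2 h

theorem ind_iUnion_mem (S : Submodule ℝ (Lp ℝ 1 μ)) (hS : IsClosed (S : Set (Lp ℝ 1 μ)))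
    (f : ℕ → Set Z) (hd : Pairwise (Disjoint on f)) (hm : ∀ i, MeasurableSet (f i))
    (hfin : μ (⋃ i, f i) ≠ ∞) (h : ∀ i, ind μ (f i) ∈ S) : ind μ (⋃ i, f i) ∈ S := by
  let t : ℕ → Set Z := fun n => ⋃ i ∈ Finset.range n, f i
  have htm : ∀ n, MeasurableSet (t n) := fun n =>
    Finset.measurableSet_biUnion _ fun i _ => hm i
  have hsub : ∀ n, t n ⊆ ⋃ i, f i := fun n => iUnion₂_subset fun i _ => subset_iUnion f i
  have htf : ∀ n, μ (t n) ≠ ∞ := fun n => ne_top_of_le_ne_top hfin (measure_mono (hsub n))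
  have hff : ∀ n, μ (f n) ≠ ∞ := fun n =>
    ne_top_of_le_ne_top hfin (measure_mono (subset_iUnion f n))
  have htS : ∀ n, ind μ (t n) ∈ S := by
    intro n
    induction n with
    | zero => simp [t, ind_empty]
    | succ n ih =>
      have h1 : t (n + 1) = f n ∪ t n := by
        simp only [t, Finset.range_add_one, Finset.set_biUnion_insert]
      have h2 : Disjoint (f n) (t n) := by
        simp only [t, disjoint_iUnion_right, Finset.mem_range]
        intro i hi
        exact hd hi.ne'
      rw [h1, ind_union (hm n) (htm n) (hff n) (htf n) h2]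
      exact S.add_mem (h n) ih
  have hmono : Monotone t := fun a b hab =>
    biUnion_subset_biUnion_left (Finset.coe_subset.2 (Finset.range_mono hab))
  have hU : ⋃ n, t n = ⋃ i, f i := by
    refine Subset.antisymm (iUnion_subset hsub) (iUnion_subset fun i => ?_)
    refine subset_iUnion_of_subset (i + 1) ?_
    exact subset_biUnion_of_mem (u := f) (Finset.mem_coe.2 (Finset.self_mem_range_succ i))
  have hlim : Tendsto (fun n => μ (t n ∆ ⋃ i, f i)) atTop (𝓝 0) := by
    have h1 : ∀ n, μ (t n ∆ ⋃ i, f i) = μ (⋃ i, f i) - μ (t n) := by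
      intro n
      rw [symmDiff_of_le (hsub n), measure_sdiff (hsub n) (htm n).nullMeasurableSet (htf n)]
    simp_rw [h1]
    have h2 := tendsto_measure_iUnion_atTop (μ := μ) hmono
    rw [hU] at h2
    have h3 := ENNReal.Tendsto.sub (tendsto_const_nhds (x := μ (⋃ i, f i))) h2 (Or.inl hfin)
    simpa using h3
  have hT := tendsto_indicatorConstLp_set (p := 1) (c := (1 : ℝ)) (hs := MeasurableSet.iUnion hm)
    (hμs := hfin) (ht := htm) (hμt := htf) ENNReal.one_ne_top hlim
  rw [ind_eq (MeasurableSet.iUnion hm) hfin]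
  refine hS.mem_of_tendsto hT (Eventually.of_forall fun n => ?_)
  rw [← ind_eq]
  exact htS n

/-- A closed subspace of `L¹` that contains the indicators of a generating π-system of sets of
finite measure, countably many of which cover almost everything, is the whole space. -/
theorem eq_top_of_ind_mem (S : Submodule ℝ (Lp ℝ 1 μ)) (hS : IsClosed (S : Set (Lp ℝ 1 μ)))
    (C : Set (Set Z)) (hgen : mZ = MeasurableSpace.generateFrom C) (hpi : IsPiSystem C)
    (hfin : ∀ s ∈ C, μ s ≠ ∞) (hmem : ∀ s ∈ C, ind μ s ∈ S)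
    (B : ℕ → Set Z) (hB : ∀ n, B n ∈ C ∨ B n = ∅) (hcov : μ (⋃ n, B n)ᶜ = 0) :
    ∀ x, x ∈ S := by
  have hCm : ∀ s ∈ C, MeasurableSet s := fun s hs => by
    rw [hgen]
    exact MeasurableSpace.measurableSet_generateFrom hs
  have h2 : ∀ b ∈ C, ∀ s, MeasurableSet s → ind μ (s ∩ b) ∈ S := by
    intro b hb s hs
    have hsf : ∀ s, μ (s ∩ b) ≠ ∞ := fun s =>
      ne_top_of_le_ne_top (hfin b hb) (measure_mono inter_subset_right)
    induction s, hs using MeasurableSpace.induction_on_inter hgen hpi with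
    | empty => simp [ind_empty]
    | basic t ht =>
      rcases (t ∩ b).eq_empty_or_nonempty with h | h
      · simp [h, ind_empty]
      · exact hmem _ (hpi t ht b hb h)
    | compl t htm ih =>
      have h1 : b = (tᶜ ∩ b) ∪ (t ∩ b) := by
        rw [← union_inter_distrib_right]
        simp
      have h3 : ind μ b = ind μ (tᶜ ∩ b) + ind μ (t ∩ b) := by
        conv_lhs => rw [h1]
        refine ind_union (htm.compl.inter (hCm b hb)) (htm.inter (hCm b hb)) (hsf _) (hsf _) ?_
        exact disjoint_compl_left.mono inter_subset_left inter_subset_left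
      have h4 : ind μ (tᶜ ∩ b) = ind μ b - ind μ (t ∩ b) := by rw [h3]; simp
      rw [h4]
      exact S.sub_mem (hmem b hb) ih
    | iUnion f hd hfm ih =>
      rw [iUnion_inter]
      refine ind_iUnion_mem S hS _ ?_ (fun i => (hfm i).inter (hCm b hb)) ?_ ih
      · intro i j hij
        exact (hd hij).mono inter_subset_left inter_subset_left
      · rw [← iUnion_inter]
        exact hsf _
  have hBm : ∀ n, MeasurableSet (B n) := fun n => by
    rcases hB n with h | h
    · exact hCm _ h
    · rw [h]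
      exact MeasurableSet.empty
  have h3 : ∀ s, MeasurableSet s → μ s ≠ ∞ → ind μ s ∈ S := by
    intro s hs hμs
    have h4 : ind μ (⋃ n, s ∩ disjointed B n) ∈ S := by
      refine ind_iUnion_mem S hS _ ?_ (fun i => hs.inter (MeasurableSet.disjointed hBm i)) ?_ ?_
      · intro i j hij
        exact (disjoint_disjointed B hij).mono inter_subset_right inter_subset_right
      · exact ne_top_of_le_ne_top hμs (measure_mono (iUnion_subset fun _ => inter_subset_left))
      · intro n
        have h5 : s ∩ disjointed B n = (s ∩ disjointed B n) ∩ B n :=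
          (inter_eq_left.2 (inter_subset_right.trans (disjointed_subset B n))).symm
        rcases hB n with h | h
        · rw [h5]
          exact h2 _ h _ (hs.inter (MeasurableSet.disjointed hBm n))
        · rw [h5, h]
          simp [ind_empty]
    rw [← inter_iUnion, iUnion_disjointed] at h4
    have h6 : s =ᵐ[μ] (s ∩ ⋃ n, B n : Set Z) := by
      refine (inter_ae_eq_left_of_ae_eq_univ ?_).symm
      exact ae_eq_univ.2 hcov
    rwa [ind_congr hs (hs.inter (MeasurableSet.iUnion hBm)) hμs h6]
  refine Lp.induction (p := 1) ENNReal.one_ne_top (fun x => x ∈ S) ?_ ?_ hS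
  · intro c s hs hμs
    have h4 : (Lp.simpleFunc.indicatorConst 1 hs hμs.ne c : Lp ℝ 1 μ) = c • ind μ s := by
      rw [Lp.simpleFunc.coe_indicatorConst, ind_eq hs hμs.ne]
      ext1
      grw [Lp.coeFn_smul, indicatorConstLp_coeFn, indicatorConstLp_coeFn]
      refine Eventually.of_forall fun x => ?_
      by_cases hx : x ∈ s <;> simp [hx]
    change (Lp.simpleFunc.indicatorConst 1 hs hμs.ne c : Lp ℝ 1 μ) ∈ S
    rw [h4]
    exact S.smul_mem _ (h3 s hs hμs.ne)
  · intro f g hf hg _ h1 h2
    exact S.add_mem h1 h2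

/-- Integration over a set as a linear functional on `L¹`. -/
noncomputable def setInt (μ : Measure Z) (s : Set Z) : Lp ℝ 1 μ →ₗ[ℝ] ℝ where
  toFun x := ∫ a in s, x a ∂μ
  map_add' x y := by
    rw [integral_congr_ae (ae_restrict_of_ae (Lp.coeFn_add x y))]
    exact integral_add (L1.integrable_coeFn x).integrableOn (L1.integrable_coeFn y).integrableOn
  map_smul' c x := by
    rw [integral_congr_ae (ae_restrict_of_ae (Lp.coeFn_smul c x))]
    exact integral_smul c _

theorem setInt_ind {s t : Set Z} (hs : MeasurableSet s) (ht : MeasurableSet t) (hμ : μ t ≠ ∞) :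
    setInt μ s (ind μ t) = μ.real (t ∩ s) := by
  rw [ind_eq ht hμ]
  change ∫ a in s, indicatorConstLp 1 ht hμ (1 : ℝ) a ∂μ = _
  rw [setIntegral_indicatorConstLp hs ht hμ]
  simp

theorem sum_abs_setInt_le {ι : Type*} (F : Finset ι) (A : ι → Set Z)
    (hA : ∀ i ∈ F, MeasurableSet (A i)) (hd : Set.Pairwise (↑F) (Disjoint on A))
    (x : Lp ℝ 1 μ) : ∑ i ∈ F, |setInt μ (A i) x| ≤ ‖x‖ := by
  have hx : Integrable (fun a => ‖x a‖) μ := (L1.integrable_coeFn x).norm
  calc ∑ i ∈ F, |setInt μ (A i) x| ≤ ∑ i ∈ F, ∫ a in A i, ‖x a‖ ∂μ :=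
        Finset.sum_le_sum fun i _ => norm_integral_le_integral_norm (fun a => x a)
    _ = ∫ a in ⋃ i ∈ F, A i, ‖x a‖ ∂μ :=
        (integral_biUnion_finset F hA hd fun i _ => hx.integrableOn).symm
    _ ≤ ∫ a, ‖x a‖ ∂μ := setIntegral_le_integral hx (Eventually.of_forall fun a => norm_nonneg _)
    _ = ‖x‖ := (L1.norm_eq_integral_norm x).symm

end Pool.Agent.P.MP_158617_an
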