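import Pool.Agent.P.MP_158617_an.Free
import Pool.Agent.P.MP_158617_an.Arc

/-!
The Lipschitz free space of a bounded turning arc is isomorphic to an `L¹` space.
-/

namespace Pool.Agent.P.MP_158617_an

open Set MeasureTheory

variable {X : Type*} [MetricSpace X]

theorem isSize_diam {Γ : ℝ → X} (hΓ : UniformContinuous Γ) :
    IsSize fun u v => Metric.diam (Γ '' Icc u v) := by
  have hb : ∀ u v, Bornology.IsBounded (Γ '' Icc u v) := fun u v =>
    (isCompact_Icc.image hΓ.continuous).isBounded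
  refine ⟨fun u => by simp, fun u v w huv hvw => ?_, fun u v u' v' h1 h2 => ?_, fun ε hε => ?_⟩
  · rw [← Icc_union_Icc_eq_Icc huv hvw, image_union]
    exact Metric.diam_union' ⟨Γ v, ⟨v, ⟨huv, le_rfl⟩, rfl⟩, ⟨v, ⟨le_rfl, hvw⟩, rfl⟩⟩
  · exact Metric.diam_mono (image_mono (Icc_subset_Icc h1 h2)) (hb _ _)
  · obtain ⟨δ, hδ, h⟩ := Metric.uniformContinuous_iff.1 hΓ (ε / 2) (half_pos hε)
    refine ⟨δ / 2, half_pos hδ, fun u v huv => ?_⟩
    refine lt_of_le_of_lt (Metric.diam_le_of_forall_dist_le (half_pos hε).le ?_) (half_lt_self hε)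
    rintro _ ⟨a, ha, rfl⟩ _ ⟨b, hb, rfl⟩
    refine (h ?_).le
    rw [Real.dist_eq, abs_lt]
    constructor <;> linarith [ha.1, ha.2, hb.1, hb.2]

theorem main_aux (Γ : ℝ → X) (hΓ : UniformContinuous Γ) (hsurj : ∀ x, ∃ s ∈ Icc (0 : ℝ) 1, Γ s = x)
    (h01 : Γ 0 ≠ Γ 1) (C : ℝ) (hC : 0 ≤ C)
    (hBT : ∀ u v, 0 ≤ u → u ≤ v → v ≤ 1 → Metric.diam (Γ '' Icc u v) ≤ C * dist (Γ u) (Γ v))
    (x₀ : X) :
    ∃ (Z : Type) (_ : MeasurableSpace Z) (μ : Measure Z),
      Nonempty (freeSpace x₀ ≃L[ℝ] Lp ℝ 1 μ) := by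
  have hD := isSize_diam hΓ
  have hb : ∀ u v, Bornology.IsBounded (Γ '' Icc u v) := fun u v =>
    (isCompact_Icc.image hΓ.continuous).isBounded
  have hdist : ∀ u v a b, a ∈ Icc u v → b ∈ Icc u v →
      dist (Γ a) (Γ b) ≤ Metric.diam (Γ '' Icc u v) := fun u v a b ha hb' =>
    Metric.dist_le_diam_of_mem (hb u v) ⟨a, ha, rfl⟩ ⟨b, hb', rfl⟩
  have hpos : 0 < Metric.diam (Γ '' Icc 0 1) :=
    (dist_pos.2 h01).trans_le (hdist 0 1 0 1 ⟨le_rfl, zero_le_one⟩ ⟨zero_le_one, le_rfl⟩)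
  obtain ⟨T, t, ht0, ht1, htp, hti⟩ := hD.exists_tower hpos
  obtain ⟨mZ, μ, e, he⟩ := T.forest.exists_system
  refine ⟨ℝ, mZ, μ, ?_⟩
  let r : ℕ → ℝ := fun k => Metric.diam (Γ '' Icc 0 1) / 2 ^ k
  have hr0 : ∀ k, 0 < r k := fun k => by simp only [r]; positivity
  have hr : ∀ k, r k = 2 * r (k + 1) := fun k => by
    simp only [r]
    field_simp
    ring
  have hmono : ∀ k j j', j ≤ j' → j' ≤ T.N k → t k j ≤ t k j' := by
    intro k j j' hjj
    induction j', hjj using Nat.le_induction with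
    | base => exact fun _ => le_rfl
    | succ j' _ ih => exact fun h => (ih (by omega)).trans (hti k j' (by omega)).1
  have hlip := T.Phi_lip he hr0 hr (fun k j j' => Metric.diam (Γ '' Icc (t k j) (t k j')))
    (fun k j j' hjj hj' => (hti k j (by omega)).2.1.trans
      (hD.mono _ _ _ _ le_rfl (hmono k (j + 1) j' hjj hj')))
    (fun k i i' j j' h1 h2 h3 h4 => by
      rw [← htp k i, ← htp k i']
      exact hD.mono _ _ _ _
        (hmono _ _ _ h1 ((((T.p_strictMono k).monotone h2).trans h3).trans h4)) (hmono _ _ _ h3 h4))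
  have hlip2 : ∀ k j j', j ≤ T.N k → j' ≤ T.N k →
      ‖T.Phi e r k j - T.Phi e r k j'‖ ≤ 80 * C * dist (Γ (t k j)) (Γ (t k j')) := by
    have h1 : ∀ k j j', j < j' → j' ≤ T.N k →
        ‖T.Phi e r k j' - T.Phi e r k j‖ ≤ 80 * C * dist (Γ (t k j)) (Γ (t k j')) := by
      intro k j j' hjj hj'
      have h2 := hlip k j j' hjj hj'
      have h3 := hBT (t k j) (t k j') (by rw [← ht0 k]; exact hmono k 0 j (by omega) (by omega))
        (hmono k j j' hjj.le hj') (by rw [← ht1 k]; exact hmono k j' _ hj' le_rfl)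
      linarith [hr0 k]
    intro k j j' hj hj'
    rcases lt_trichotomy j j' with h | rfl | h
    · rw [norm_sub_rev]
      exact h1 k j j' h hj'
    · simp
    · rw [dist_comm]
      exact h1 k j' j h hj
  have hlift : ∀ k j, j ≤ T.N k → ∀ m, k ≤ m →
      ∃ j', j' ≤ T.N m ∧ t m j' = t k j ∧ T.Phi e r m j' = T.Phi e r k j := by
    intro k j hj m hm
    induction m, hm using Nat.le_induction with
    | base => exact ⟨j, hj, rfl, rfl⟩
    | succ m _ ih =>
      obtain ⟨j', h1, h2, h3⟩ := ih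
      exact ⟨T.p m j', T.p_le_N h1, by rw [htp, h2], by rw [T.Phi_p, h3]⟩
  let ι := {q : ℕ × ℕ // q.2 ≤ T.N q.1}
  refine free_iso x₀ (ι := ι) (fun q => Γ (t q.1.1 q.1.2)) ?_ ⟨(0, 0), Nat.zero_le _⟩
    (fun q => T.Phi e r q.1.1 q.1.2) (80 * C) 24 (by positivity) (by norm_num) ?_
    (T.Phi_zero_zero e r) ?_ ?_
  · rw [Metric.denseRange_iff]
    intro x ε hε
    obtain ⟨s, hs, rfl⟩ := hsurj x
    obtain ⟨k, hk⟩ := pow_unbounded_of_one_lt (4 * Metric.diam (Γ '' Icc 0 1) / ε)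
      (one_lt_two (α := ℝ))
    have hk' : 4 * r k < ε := by
      rw [div_lt_iff₀ hε] at hk
      simp only [r]
      rw [← mul_div_assoc, div_lt_iff₀ (by positivity)]
      linarith
    have h1 : ∀ n, n ≤ T.N k → s ≤ t k n →
        ∃ j, j ≤ T.N k ∧ dist (Γ s) (Γ (t k j)) ≤ 4 * r k := by
      intro n
      induction n with
      | zero =>
        intro hn h
        refine ⟨0, hn, ?_⟩
        have h2 : s = t k 0 := le_antisymm h (by rw [ht0]; exact hs.1)
        rw [← h2, dist_self]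
        linarith [hr0 k]
      | succ n ih =>
        intro hn h
        rcases le_total s (t k n) with h2 | h2
        · exact ih (by omega) h2
        · exact ⟨n, by omega, (hdist _ _ _ _ ⟨h2, h⟩ ⟨le_rfl, h2.trans h⟩).trans
            (hti k n hn).2.2⟩
    obtain ⟨j, hj, h2⟩ := h1 _ le_rfl (by rw [ht1]; exact hs.2)
    exact ⟨⟨(k, j), hj⟩, h2.trans_lt hk'⟩
  · rintro ⟨⟨k, j⟩, hj⟩ ⟨⟨k', j'⟩, hj'⟩
    obtain ⟨a, ha, h1, h2⟩ := hlift k j hj (max k k') (le_max_left _ _)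
    obtain ⟨b, hb', h3, h4⟩ := hlift k' j' hj' (max k k') (le_max_right _ _)
    have h5 := hlip2 _ a b ha hb'
    rwa [h1, h2, h3, h4] at h5
  · intro f L hL hf
    obtain ⟨φ, hφ, hφv⟩ := T.Phi_lift he hr0 hr (fun k j => f (Γ (t k j)) - f (Γ (t 0 0))) (4 * L)
      (by linarith) (by simp) (fun k i _ => by simp only [htp]) (fun k i j hi h1 h2 => by
        simp only [sub_sub_sub_cancel_right]
        have hN := T.p_le_N (k := k) (i := i + 1) hi
        have h3 : t (k + 1) j ∈ Icc (t k i) (t k (i + 1)) := by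
          rw [← htp k i, ← htp k (i + 1)]
          exact ⟨hmono _ _ _ h1 (h2.trans hN), hmono _ _ _ h2 hN⟩
        have h4 := (hdist _ _ _ _ h3 ⟨le_rfl, (hti k i hi).1⟩).trans (hti k i hi).2.2
        calc |f (Γ (t (k + 1) j)) - f (Γ (t k i))| ≤ L * dist (Γ (t (k + 1) j)) (Γ (t k i)) :=
              hf _ _
          _ ≤ L * (4 * r k) := mul_le_mul_of_nonneg_left h4 hL
          _ = 4 * L * r k := by ring)
    exact ⟨φ, by linarith, fun q => hφv _ _ q.2⟩
  · intro x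
    refine T.Phi_dense he hr0 (Submodule.span ℝ (range fun q : ι => T.Phi e r q.1.1 q.1.2)).topologicalClosure
      (Submodule.isClosed_topologicalClosure _) (fun k j hj => ?_) x
    exact Submodule.le_topologicalClosure _ (Submodule.subset_span ⟨⟨(k, j), hj⟩, rfl⟩)

theorem main (γ : Icc (0 : ℝ) 1 ≃ₜ X) (C : ℝ) (hC : 1 ≤ C)
    (hBT : ∀ x y : X, Metric.diam (γ '' uIcc (γ.symm x) (γ.symm y)) ≤ C * dist x y) (x₀ : X) :
    ∃ (Z : Type) (_ : MeasurableSpace Z) (μ : Measure Z),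
      Nonempty (freeSpace x₀ ≃L[ℝ] Lp ℝ 1 μ) := by
  have hγ : UniformContinuous γ := CompactSpace.uniformContinuous_of_continuous γ.continuous
  refine main_aux (fun s => γ (projIcc 0 1 zero_le_one s))
    (hγ.comp (LipschitzWith.projIcc zero_le_one).uniformContinuous) ?_ ?_ C (by linarith) ?_ x₀
  · intro x
    exact ⟨γ.symm x, (γ.symm x).2, by simp⟩
  · intro h
    have h1 := γ.injective h
    simp at h1
  · intro u v hu huv hv
    have h1 := hBT (γ (projIcc 0 1 zero_le_one u)) (γ (projIcc 0 1 zero_le_one v))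
    refine le_trans (Metric.diam_mono ?_ ?_) h1
    · rintro _ ⟨s, hs, rfl⟩
      refine ⟨_, ?_, rfl⟩
      rw [γ.symm_apply_apply, γ.symm_apply_apply]
      exact Icc_subset_uIcc ⟨monotone_projIcc _ hs.1, monotone_projIcc _ hs.2⟩
    · exact (isCompact_uIcc.image γ.continuous).isBounded

end Pool.Agent.P.MP_158617_an
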